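import Mathlib

set_option autoImplicit false

namespace Pool.Agent.H518Z.Hol

open Filter Topology

/-- Property (H) of the closed unit ball of `X`. -/
def PropH (X : Type*) [NormedAddCommGroup X] [NormedSpace ℝ X] : Prop :=
  ∀ α : ℝ, 0 < α → α < 1 →
    ∃ T : Metric.closedBall (0 : X) 1 → Metric.closedBall (0 : X) 1,
      (∀ n : ℕ, 1 ≤ n → ∀ x y : Metric.closedBall (0 : X) 1,
        ‖(T^[n] x : X) - (T^[n] y : X)‖ ≤ ‖(x : X) - (y : X)‖ ^ α) ∧
      (∀ x, T x ≠ x) ∧
      ⨅ x : Metric.closedBall (0 : X) 1, ‖(x : X) - (T x : X)‖ = 0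

/-- `X` has a bounded projection with infinite-dimensional range and kernel. -/
def Decomposable (X : Type*) [NormedAddCommGroup X] [NormedSpace ℝ X] : Prop :=
  ∃ P : X →L[ℝ] X, (∀ x, P (P x) = P x) ∧ ¬ FiniteDimensional ℝ (LinearMap.range P.toLinearMap) ∧
    ¬ FiniteDimensional ℝ (LinearMap.ker P.toLinearMap)

/-- `X` has a uniformly bounded, strictly increasing sequence of commuting projections. -/
def HasChain (X : Type*) [NormedAddCommGroup X] [NormedSpace ℝ X] : Prop :=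
  ∃ (P : ℕ → X →L[ℝ] X) (C : ℝ), (∀ n, ‖P n‖ ≤ C) ∧ (∀ m n x, P m (P n x) = P (min m n) x) ∧
    ∀ n, P (n + 1) ≠ P n

/-- The quadratic variations of `x` along increasing sequences of indices. -/
def jvar (x : ℕ → ℝ) : Set ℝ :=
  {r | ∃ (p : ℕ → ℕ) (k : ℕ), StrictMono p ∧ 1 ≤ k ∧
    r = √(∑ i ∈ Finset.range k, (x (p i) - x (p (i + 1))) ^ 2)}

lemma jvar_nonempty (x : ℕ → ℝ) : (jvar x).Nonempty := ⟨_, id, 1, strictMono_id, le_rfl, rfl⟩

lemma jvar_add {x y : ℕ → ℝ} {a b : ℝ} (ha : a ∈ upperBounds (jvar x))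
    (hb : b ∈ upperBounds (jvar y)) : a + b ∈ upperBounds (jvar (x + y)) := by
  rintro _ ⟨p, k, hp, hk, rfl⟩
  refine le_trans ?_ (add_le_add (ha ⟨p, k, hp, hk, rfl⟩) (hb ⟨p, k, hp, hk, rfl⟩))
  have h := Real.sum_mul_le_sqrt_mul_sqrt (Finset.range k) (fun i => x (p i) - x (p (i + 1)))
    (fun i => y (p i) - y (p (i + 1)))
  refine Real.sqrt_le_iff.2 ⟨by positivity, ?_⟩
  rw [add_sq, Real.sq_sqrt (by positivity), Real.sq_sqrt (by positivity)]
  have e : ∑ i ∈ Finset.range k, ((x + y) (p i) - (x + y) (p (i + 1))) ^ 2 =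
      ∑ i ∈ Finset.range k, (x (p i) - x (p (i + 1))) ^ 2 +
      2 * ∑ i ∈ Finset.range k, (x (p i) - x (p (i + 1))) * (y (p i) - y (p (i + 1))) +
      ∑ i ∈ Finset.range k, (y (p i) - y (p (i + 1))) ^ 2 := by
    rw [Finset.mul_sum, ← Finset.sum_add_distrib, ← Finset.sum_add_distrib]
    exact Finset.sum_congr rfl fun i _ => by simp only [Pi.add_apply]; ring
  rw [e]; linarith

lemma jvar_smul {x : ℕ → ℝ} {a : ℝ} (c : ℝ) (ha : a ∈ upperBounds (jvar x)) :
    |c| * a ∈ upperBounds (jvar (c • x)) := by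
  rintro _ ⟨p, k, hp, hk, rfl⟩
  refine le_trans (le_of_eq ?_) (mul_le_mul_of_nonneg_left (ha ⟨p, k, hp, hk, rfl⟩) (abs_nonneg c))
  rw [← Real.sqrt_sq_eq_abs, ← Real.sqrt_mul (sq_nonneg c), Finset.mul_sum]
  congr 1
  exact Finset.sum_congr rfl fun i _ => by simp only [Pi.smul_apply, smul_eq_mul]; ring

lemma jvar_abs {x : ℕ → ℝ} {a : ℝ} (hx : Tendsto x atTop (𝓝 0)) (ha : a ∈ upperBounds (jvar x))
    (n : ℕ) : |x n| ≤ a := by
  have h1 : Tendsto (fun m => |x n - x m|) atTop (𝓝 |x n - 0|) := (hx.const_sub _).abs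
  rw [sub_zero] at h1
  refine le_of_tendsto h1 (eventually_atTop.2 ⟨n + 1, fun m hm => ha ⟨fun i => n + i * (m - n), 1,
    fun i j hij => ?_, le_rfl, ?_⟩⟩)
  · exact Nat.add_lt_add_left (Nat.mul_lt_mul_of_pos_right hij (by omega)) n
  · rw [Finset.sum_range_one, Real.sqrt_sq_eq_abs]
    simp only [zero_mul, add_zero, zero_add, one_mul]
    rw [Nat.add_sub_cancel' (by omega)]

/-- Null sequences with bounded quadratic variation. -/
def jamesSub : Submodule ℝ (ℕ → ℝ) where
  carrier := {x | Tendsto x atTop (𝓝 0) ∧ BddAbove (jvar x)}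
  add_mem' := fun {x y} hx hy => ⟨add_zero (0 : ℝ) ▸ hx.1.add hy.1, by
    obtain ⟨a, ha⟩ := hx.2
    obtain ⟨b, hb⟩ := hy.2
    exact ⟨_, jvar_add ha hb⟩⟩
  zero_mem' := ⟨tendsto_const_nhds, 0, by rintro _ ⟨p, k, -, -, rfl⟩; simp⟩
  smul_mem' := fun c x hx => ⟨smul_zero (A := ℝ) c ▸ hx.1.const_smul c, by
    obtain ⟨a, ha⟩ := hx.2
    exact ⟨_, jvar_smul c ha⟩⟩

/-- James's space `J_2` as a type. -/
def James : Type := jamesSub

noncomputable instance jamesAdd : AddCommGroup James := inferInstanceAs (AddCommGroup jamesSub)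

noncomputable instance jamesModule : Module ℝ James := inferInstanceAs (Module ℝ jamesSub)

/-- James's norm: the supremum of the quadratic variations. -/
noncomputable instance jamesNorm : Norm James :=
  ⟨fun x => sSup (jvar (Subtype.val (p := (· ∈ jamesSub)) x))⟩

lemma james_ub (x : James) : ‖x‖ ∈ upperBounds (jvar (Subtype.val (p := (· ∈ jamesSub)) x)) :=
  fun _ h => le_csSup x.2.2 h

lemma james_smul_le (c : ℝ) (x : James) : ‖c • x‖ ≤ |c| * ‖x‖ :=
  csSup_le (jvar_nonempty _) (jvar_smul c (james_ub x))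

lemma james_core : NormedSpace.Core ℝ James where
  norm_nonneg x := (abs_nonneg _).trans (jvar_abs x.2.1 (james_ub x) 0)
  norm_smul c x := by
    refine le_antisymm (james_smul_le c x) ?_
    by_cases h : c = 0
    · rw [h, norm_zero, zero_mul]
      exact (abs_nonneg _).trans (jvar_abs ((0 : ℝ) • x).2.1 (james_ub _) 0)
    · have := james_smul_le c⁻¹ (c • x)
      rw [smul_smul, inv_mul_cancel₀ h, one_smul, abs_inv, le_inv_mul_iff₀ (abs_pos.2 h)] at this
      exact this
  norm_triangle x y := csSup_le (jvar_nonempty _) (jvar_add (james_ub x) (james_ub y))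
  norm_eq_zero_iff x := by
    constructor
    · intro h
      refine Subtype.ext (funext fun n => abs_nonpos_iff.1 ?_)
      exact (jvar_abs x.2.1 (james_ub x) n).trans h.le
    · rintro rfl
      refine le_antisymm ?_ ((abs_nonneg _).trans (jvar_abs (0 : James).2.1 (james_ub _) 0))
      have := james_smul_le 0 0
      rwa [zero_smul, abs_zero, zero_mul] at this

noncomputable instance jamesNormedAdd : NormedAddCommGroup James :=
  NormedAddCommGroup.ofCore james_core

noncomputable instance jamesNormedSpace : NormedSpace ℝ James := NormedSpace.ofCore james_core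

end Pool.Agent.H518Z.Hol
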