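import Pool.Agent.H518Z.Hol.Main
import Pool.Agent.H518Z.Hol.Defs

set_option autoImplicit false

namespace Pool.Agent.H518Z.Hol

open Filter Topology

variable {X : Type*} [NormedAddCommGroup X] [NormedSpace ℝ X]

theorem Sys.propH (S : Sys X) : PropH X := by
  obtain ⟨G, L, B, hL, hB, gl, gb, g3, gn, ga⟩ := S.exists_G
  intro α h0 h1
  set d0 : ℝ := (1 / L ^ 2) ^ (1 / (1 - α)) with hd0
  have L2 : 1 ≤ L ^ 2 := one_le_pow₀ hL
  have d0p : 0 < d0 := Real.rpow_pos_of_pos (by positivity) _
  have d01 : d0 ≤ 1 := Real.rpow_le_one (by positivity) (by rw [div_le_one (by linarith)]; exact L2)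
    (by apply div_nonneg <;> linarith)
  have d0e : d0 ^ (1 - α) = 1 / L ^ 2 := by
    rw [hd0, ← Real.rpow_mul (by positivity), one_div_mul_cancel (by linarith), Real.rpow_one]
  have c0 : 0 < d0 ^ α := Real.rpow_pos_of_pos d0p _
  have c1 : d0 ^ α ≤ 1 := Real.rpow_le_one d0p.le d01 h0.le
  set ε : ℝ := d0 ^ α / (2 * B) with hε
  have εp : 0 < ε := by positivity
  have εB : ε * B = d0 ^ α / 2 := by rw [hε]; field_simp
  have nb : ∀ z : X, ‖z‖ ≤ B → ‖ε • z‖ ≤ d0 ^ α / 2 := fun z hz => by
    rw [norm_smul, Real.norm_of_nonneg εp.le, ← εB]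
    exact mul_le_mul_of_nonneg_left hz εp.le
  have mb : ∀ z : X, ‖z‖ ≤ B → ε • z ∈ Metric.closedBall (0 : X) 1 := fun z hz => by
    rw [mem_closedBall_zero_iff]; linarith [nb z hz]
  let T : Metric.closedBall (0 : X) 1 → Metric.closedBall (0 : X) 1 :=
    fun x => ⟨ε • G (ε⁻¹ • (x : X)), mb _ (gb _)⟩
  have hT : ∀ n (x : Metric.closedBall (0 : X) 1), (T^[n] x : X) = ε • G^[n] (ε⁻¹ • (x : X)) := by
    intro n x
    induction n with
    | zero => simp [smul_smul, mul_inv_cancel₀ εp.ne']
    | succ n ih =>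
      rw [Function.iterate_succ_apply', Function.iterate_succ_apply']
      simp only [T]
      rw [ih, smul_smul, inv_mul_cancel₀ εp.ne', one_smul]
  have hG : ∀ n, G^[n + 1] = G ∨ G^[n + 1] = G ∘ G := by
    intro n
    induction n with
    | zero => left; rfl
    | succ n ih =>
      rw [Function.iterate_succ' G (n + 1)]
      rcases ih with h | h
      · right; rw [h]
      · left; rw [h]; funext x; exact g3 x
  have hGl : ∀ n a b, ‖G^[n + 1] a - G^[n + 1] b‖ ≤ L ^ 2 * ‖a - b‖ := by
    intro n a b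
    have := norm_nonneg (a - b)
    rcases hG n with h | h
    · rw [h]; refine (gl a b).trans (mul_le_mul_of_nonneg_right (by nlinarith) this)
    · rw [h]
      refine (gl (G a) (G b)).trans ?_
      rw [sq, mul_assoc]
      exact mul_le_mul_of_nonneg_left (gl a b) (by linarith)
  refine ⟨T, fun n hn x y => ?_, fun x h => ?_, ?_⟩
  · obtain ⟨n, rfl⟩ := Nat.exists_eq_add_of_le' hn
    rw [hT, hT]
    set d := ‖(x : X) - y‖ with hd
    have dn : 0 ≤ d := norm_nonneg _
    rcases le_total d0 d with h | h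
    · have a1 := nb (G^[n + 1] (ε⁻¹ • (x : X))) (by rw [Function.iterate_succ_apply']; exact gb _)
      have a2 := nb (G^[n + 1] (ε⁻¹ • (y : X))) (by rw [Function.iterate_succ_apply']; exact gb _)
      have a3 := Real.rpow_le_rpow d0p.le h h0.le
      refine (norm_sub_le _ _).trans ?_
      linarith
    · have a1 : ‖ε • G^[n + 1] (ε⁻¹ • (x : X)) - ε • G^[n + 1] (ε⁻¹ • (y : X))‖ ≤ L ^ 2 * d := by
        rw [← smul_sub, norm_smul, Real.norm_of_nonneg εp.le]
        refine (mul_le_mul_of_nonneg_left (hGl n _ _) εp.le).trans (le_of_eq ?_)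
        rw [← smul_sub, norm_smul, Real.norm_of_nonneg (inv_pos.2 εp).le]
        field_simp
        rfl
      refine a1.trans ?_
      have a2 : d = d ^ (1 - α) * d ^ α := by
        rw [← Real.rpow_add' dn (by linarith), sub_add_cancel, Real.rpow_one]
      have a3 : d ^ (1 - α) ≤ 1 / L ^ 2 := d0e ▸ Real.rpow_le_rpow dn h (by linarith)
      have a4 : 0 ≤ d ^ α := Real.rpow_nonneg dn _
      rw [le_div_iff₀ (by linarith)] at a3
      calc L ^ 2 * d = (d ^ (1 - α) * L ^ 2) * d ^ α := by nth_rewrite 1 [a2]; ring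
        _ ≤ 1 * d ^ α := mul_le_mul_of_nonneg_right a3 a4
        _ = _ := one_mul _
  · have h2 : ε • G (ε⁻¹ • (x : X)) = x := congrArg Subtype.val h
    apply gn (ε⁻¹ • (x : X))
    rw [eq_inv_smul_iff₀ εp.ne', h2]
  · have : Nonempty (Metric.closedBall (0 : X) 1) := ⟨⟨0, by simp⟩⟩
    refine le_antisymm (le_of_forall_pos_le_add fun η hη => ?_)
      (le_ciInf fun x => norm_nonneg _)
    obtain ⟨z, z1, z2⟩ := ga (η / ε) (by positivity)
    refine (ciInf_le ⟨0, by rintro _ ⟨x, rfl⟩; exact norm_nonneg _⟩ ⟨ε • z, mb z z1⟩).trans ?_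
    simp only [T]
    rw [smul_smul, inv_mul_cancel₀ εp.ne', one_smul, ← smul_sub, norm_smul,
      Real.norm_of_nonneg εp.le, zero_add]
    rw [lt_div_iff₀ εp] at z2
    linarith

theorem Decomposable.propH (h : Decomposable X) : PropH X := by
  obtain ⟨P, h1, h2, h3⟩ := h
  obtain ⟨e, e1, e2⟩ := exists_seq h2
  obtain ⟨R, hR⟩ := exists_retr _ h3
  have he : ∀ n, P (e n) = e n := fun n => by
    obtain ⟨x, hx⟩ := (e n).2
    rw [← hx]; exact h1 x
  have hb : ∀ x, ‖P x‖ ≤ max ‖P‖ 2 * ‖x‖ := fun x =>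
    (P.le_opNorm x).trans (mul_le_mul_of_nonneg_right (le_max_left _ _) (norm_nonneg _))
  refine Sys.propH
    { C := max ‖P‖ 2, A := P.toLinearMap, Q := fun _ => P.toLinearMap, e := fun n => e n,
      R0 := R, R := fun _ => R, hC := le_max_of_le_right one_le_two, Ab := hb,
      Qb := fun _ => hb, AA := h1, AQ := fun _ => h1, QQ := fun _ _ _ => h1, Qe := he,
      Ae := fun n => by rw [ContinuousLinearMap.coe_coe, he]; exact e1 n,
      eb := fun n => (e1 n).le.trans (le_max_of_le_right one_le_two), sep := fun m n hmn => ?_,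
      hR0 := hR, hR := fun _ => hR }
  rw [ContinuousLinearMap.coe_coe, he]
  have a1 : 1 / 2 ≤ ‖(e n : X) - e m‖ := e2 n (e m) (Submodule.subset_span ⟨m, hmn, rfl⟩)
  have a2 := le_max_right ‖P‖ 2
  nlinarith

theorem propH_of_chain (P : ℕ → X →ₗ[ℝ] X) (C : ℝ) (h1 : ∀ n x, ‖P n x‖ ≤ C * ‖x‖)
    (h2 : ∀ m n x, P m (P n x) = P (min m n) x) (h3 : ∀ n, P (n + 1) ≠ P n) : PropH X := by
  have hb : ∀ n, ∃ b : X, ‖b‖ = 1 ∧ ∀ j, P j b = if n < j then b else 0 := by
    intro n
    obtain ⟨x, hx⟩ : ∃ x, P (n + 1) x ≠ P n x := by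
      by_contra h
      push Not at h
      exact h3 n (LinearMap.ext h)
    have hx' : ‖P (n + 1) x - P n x‖ ≠ 0 := norm_ne_zero_iff.2 (sub_ne_zero.2 hx)
    refine ⟨‖P (n + 1) x - P n x‖⁻¹ • (P (n + 1) x - P n x), ?_, fun j => ?_⟩
    · rw [norm_smul, norm_inv, norm_norm, inv_mul_cancel₀ hx']
    · rw [map_smul, map_sub, h2, h2]
      split_ifs with h
      · rw [min_eq_right (by omega), min_eq_right (by omega)]
      · rw [min_eq_left (by omega), min_eq_left (by omega), sub_self, smul_zero]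
  choose b b1 b2 using hb
  have hli : LinearIndependent ℝ b := by
    refine linearIndependent_iff'.2 fun s g hg i hi => ?_
    have a1 : (P (i + 1) - P i) (∑ j ∈ s, g j • b j) = g i • b i := by
      rw [map_sum, Finset.sum_eq_single i]
      · rw [map_smul, LinearMap.sub_apply, b2, b2, if_pos (by omega), if_neg (by omega), sub_zero]
      · intro j _ hj
        rw [map_smul, LinearMap.sub_apply, b2, b2]
        rcases lt_or_gt_of_ne hj with h | h
        · rw [if_pos (by omega), if_pos h, sub_self, smul_zero]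
        · rw [if_neg (by omega), if_neg (by omega), sub_self, smul_zero]
      · intro h; exact absurd hi h
    rw [hg, map_zero] at a1
    rcases smul_eq_zero.1 a1.symm with h | h
    · exact h
    · have := b1 i; rw [h, norm_zero] at this; norm_num at this
  have hinf : ∀ (W : Submodule ℝ X) (n : ℕ), (∀ k, b (k + n) ∈ W) → ¬ FiniteDimensional ℝ W := by
    intro W n hW hfd
    have : LinearIndependent ℝ (fun k => (⟨b (k + n), hW k⟩ : W)) :=
      LinearIndependent.of_comp W.subtype (hli.comp (fun k => k + n) (add_left_injective n))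
    exact Module.Finite.not_linearIndependent_of_infinite _ this
  obtain ⟨R0, hR0⟩ := exists_retr (LinearMap.ker (P 1 - P 0)) (hinf _ 1 fun k => by
    rw [LinearMap.mem_ker, LinearMap.sub_apply, b2, b2, if_neg (by omega), if_neg (by omega),
      sub_zero])
  choose R hR using fun n => exists_retr (LinearMap.ker (P (n + 2))) (hinf _ (n + 2) fun k => by
    rw [LinearMap.mem_ker, b2, if_neg (by omega)])
  have C1 : 1 ≤ C := by
    have := h1 1 (b 0)
    rwa [b2, if_pos (by omega), b1, mul_one] at this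
  have hQ : ∀ m n, m ≤ n → P (m + 2) (b 0 + b (n + 1)) = b 0 + if m = n then b (n + 1) else 0 := by
    intro m n hmn
    rw [map_add, b2, b2, if_pos (by omega)]
    congr 1
    exact if_congr (by omega) rfl rfl
  refine Sys.propH
    { C := 2 * C, A := P 1 - P 0, Q := fun n => P (n + 2), e := fun n => b 0 + b (n + 1),
      R0 := R0, R := R, hC := by linarith, Ab := fun x => ?_,
      Qb := fun n x => (h1 _ x).trans (by nlinarith [norm_nonneg x]), AA := fun x => ?_,
      AQ := fun n x => ?_, QQ := fun m n hmn x => by rw [h2, min_eq_left (by omega)],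
      Qe := fun n => by rw [hQ n n le_rfl, if_pos rfl], Ae := fun n => ?_,
      eb := fun n => ?_, sep := fun m n hmn => ?_, hR0 := hR0, hR := hR }
  · rw [LinearMap.sub_apply]
    refine (norm_sub_le _ _).trans ?_
    linarith [h1 1 x, h1 0 x]
  · simp only [LinearMap.sub_apply, map_sub, h2]
    simp
  · simp only [LinearMap.sub_apply, h2]
    rw [min_eq_left (by omega), min_eq_left (by omega)]
  · rw [LinearMap.sub_apply, map_add, map_add, b2, b2, b2, b2, if_pos (by omega),
      if_neg (by omega), if_neg (by omega), if_neg (by omega)]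
    simp [b1]
  · refine (norm_add_le _ _).trans ?_
    rw [b1, b1]; linarith
  · rw [hQ m n hmn.le, if_neg (by omega), add_zero, sub_add_cancel_left, norm_neg, b1]
    linarith

theorem HasChain.propH (h : HasChain X) : PropH X := by
  obtain ⟨P, C, h1, h2, h3⟩ := h
  exact propH_of_chain (fun n => (P n).toLinearMap) C
    (fun n x => ((P n).le_opNorm x).trans (mul_le_mul_of_nonneg_right (h1 n) (norm_nonneg _))) h2
    fun n h => h3 n (ContinuousLinearMap.coe_injective h)

theorem HasChain.equiv {Y : Type*} [NormedAddCommGroup Y] [NormedSpace ℝ Y] (h : HasChain Y)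
    (φ : X ≃L[ℝ] Y) : HasChain X := by
  obtain ⟨P, C, h1, h2, h3⟩ := h
  refine ⟨fun n => (φ.symm : Y →L[ℝ] X).comp ((P n).comp (φ : X →L[ℝ] Y)),
    ‖(φ.symm : Y →L[ℝ] X)‖ * (C * ‖(φ : X →L[ℝ] Y)‖), fun n => ?_, fun m n x => ?_,
    fun n h => h3 n ?_⟩
  · refine (ContinuousLinearMap.opNorm_comp_le _ _).trans
      (mul_le_mul_of_nonneg_left ((ContinuousLinearMap.opNorm_comp_le _ _).trans ?_)
        (norm_nonneg _))
    exact mul_le_mul_of_nonneg_right (h1 n) (norm_nonneg _)
  · simp [h2]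
  · ext y
    have := congrArg (fun f : X →L[ℝ] X => φ (f (φ.symm y))) h
    simpa using this

theorem chain_of_schauder [CompleteSpace X] (b : SchauderBasis ℝ X) : HasChain X := by
  obtain ⟨C, hC⟩ := b.exists_norm_proj_le
  refine ⟨b.proj, C, hC, b.proj_comp, fun n h => ?_⟩
  have a1 := b.finrank_range_proj (n + 1)
  rw [h, b.finrank_range_proj] at a1
  omega

theorem chain_of_uncond [CompleteSpace X] (hX : ¬ FiniteDimensional ℝ X) {β : Type*}
    (b : UnconditionalSchauderBasis β ℝ X) : HasChain X := by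
  classical
  have hβ : Infinite β := by
    by_contra h
    rw [not_infinite_iff_finite] at h
    have := Fintype.ofFinite β
    apply hX
    have a1 : ∀ x, x ∈ Submodule.span ℝ (Set.range b) := fun x => by
      rw [← (hasSum_fintype _).unique (b.expansion x)]
      exact Submodule.sum_mem _ fun i _ =>
        Submodule.smul_mem _ _ (Submodule.subset_span ⟨i, rfl⟩)
    exact Module.finite_def.2 ⟨(Set.finite_range b).toFinset, by
      rw [Set.Finite.coe_toFinset]; exact Submodule.eq_top_iff'.2 a1⟩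
  obtain ⟨C, hC⟩ := b.exists_norm_proj_le
  let j := Infinite.natEmbedding β
  refine ⟨fun n => b.proj ((Finset.range n).map j), C, fun n => hC _, fun m n x => ?_,
    fun n h => ?_⟩
  · rw [b.proj_comp]
    congr 2
    ext i
    simp only [Finset.mem_inter, Finset.mem_map, Finset.mem_range, lt_min_iff]
    constructor
    · rintro ⟨⟨a, ha, rfl⟩, ⟨a', ha', h⟩⟩
      rw [j.injective h] at ha'
      exact ⟨a, ⟨ha, ha'⟩, rfl⟩
    · rintro ⟨a, ⟨h1, h2⟩, rfl⟩
      exact ⟨⟨a, h1, rfl⟩, ⟨a, h2, rfl⟩⟩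
  · have a1 := b.finrank_range_proj ((Finset.range (n + 1)).map j)
    simp only at h
    rw [h, b.finrank_range_proj] at a1
    simp at a1

theorem chain_of_hilbert (hX : ¬ FiniteDimensional ℝ X) {H : Type*} [NormedAddCommGroup H]
    [InnerProductSpace ℝ H] [CompleteSpace H] (φ : X ≃L[ℝ] H) : HasChain X := by
  obtain ⟨w, b, -⟩ := exists_hilbertBasis ℝ H
  exact (chain_of_uncond (fun h => hX (φ.symm.toLinearEquiv.finiteDimensional))
    b.toUnconditionalSchauderBasis).equiv φ

/-- truncation of a sequence -/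
def cut (n : ℕ) (x : ℕ → ℝ) : ℕ → ℝ := fun i => if i < n then x i else 0

lemma cut_tendsto (n : ℕ) (x : ℕ → ℝ) : Tendsto (cut n x) atTop (𝓝 0) :=
  tendsto_const_nhds.congr' (eventually_atTop.2 ⟨n, fun i hi => by
    unfold cut; rw [if_neg (by omega)]⟩)

lemma cut_var (n : ℕ) {x : ℕ → ℝ} {a : ℝ} (ha : a ∈ upperBounds (jvar x)) (h : ∀ i, |x i| ≤ a) :
    2 * a ∈ upperBounds (jvar (cut n x)) := by
  rintro _ ⟨p, k, hp, hk, rfl⟩
  have a0 : 0 ≤ a := (abs_nonneg _).trans (h 0)
  have a1 := ha ⟨p, k, hp, hk, rfl⟩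
  rw [Real.sqrt_le_iff] at a1 ⊢
  refine ⟨by linarith, ?_⟩
  let f : ℕ → ℝ := fun i => if p i < n then a ^ 2 else 0
  have a2 : ∀ i, (cut n x (p i) - cut n x (p (i + 1))) ^ 2 ≤
      (x (p i) - x (p (i + 1))) ^ 2 + (f i - f (i + 1)) := by
    intro i
    have := hp (Nat.lt_succ_self i)
    have h1 := sq_nonneg (x (p i) - x (p (i + 1)))
    have h2 : x (p i) ^ 2 ≤ a ^ 2 := sq_le_sq' (abs_le.1 (h _)).1 (abs_le.1 (h _)).2
    simp only [cut, f]
    split_ifs with h3 h4 h4
    · linarith
    · linarith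
    · simp only [Nat.succ_eq_add_one] at this; omega
    · linarith
  refine (Finset.sum_le_sum fun i _ => a2 i).trans ?_
  rw [Finset.sum_add_distrib, Finset.sum_range_sub']
  have a3 : f 0 ≤ a ^ 2 := by simp only [f]; split_ifs <;> nlinarith
  have a4 : 0 ≤ f k := by simp only [f]; split_ifs <;> nlinarith
  nlinarith [a1.2]

/-- truncation on James's space -/
def cutJ (n : ℕ) : James →ₗ[ℝ] James where
  toFun x := (⟨cut n x.1, cut_tendsto n _, _,
    cut_var n (james_ub x) (jvar_abs x.2.1 (james_ub x))⟩ : jamesSub)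
  map_add' x y := Subtype.ext (funext fun i => by
    change cut n (x.1 + y.1) i = cut n x.1 i + cut n y.1 i
    unfold cut; split_ifs <;> simp)
  map_smul' c x := Subtype.ext (funext fun i => by
    change cut n (c • x.1) i = c * cut n x.1 i
    unfold cut; split_ifs <;> simp)

theorem chain_james : HasChain James := by
  have h1 : ∀ n x, ‖cutJ n x‖ ≤ 2 * ‖x‖ := fun n x =>
    csSup_le (jvar_nonempty _) (cut_var n (james_ub x) (jvar_abs x.2.1 (james_ub x)))
  refine ⟨fun n => (cutJ n).mkContinuous 2 (h1 n), 2,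
    fun n => LinearMap.mkContinuous_norm_le _ (by norm_num) _, fun m n x => ?_, fun n h => ?_⟩
  · refine Subtype.ext (funext fun i => ?_)
    change cut m (cut n x.1) i = cut (min m n) x.1 i
    unfold cut
    by_cases a1 : i < m <;> by_cases a2 : i < n <;> simp [a1, a2]
  · let x : James := (⟨cut (n + 1) fun _ => 1, cut_tendsto _ _, _,
      cut_var (a := 1) (n + 1) (by rintro _ ⟨p, k, -, -, rfl⟩; simp) (by simp)⟩ : jamesSub)
    have a1 := congrArg (fun f : James →L[ℝ] James => (f x).1 n) h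
    change cut (n + 1) (cut (n + 1) fun _ => 1) n = cut n (cut (n + 1) fun _ => 1) n at a1
    simp [cut] at a1

universe u v w

theorem main : PropH James ∧
    ∀ (X : Type u) [NormedAddCommGroup X] [NormedSpace ℝ X], ¬ FiniteDimensional ℝ X →
      ((∃ (H : Type v) (_ : NormedAddCommGroup H) (_ : InnerProductSpace ℝ H),
          CompleteSpace H ∧ Nonempty (X ≃L[ℝ] H)) ∨
        (CompleteSpace X ∧ ∃ β : Type w, Nonempty (UnconditionalSchauderBasis β ℝ X)) ∨
        Nonempty (X ≃L[ℝ] James) ∨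
        (CompleteSpace X ∧ Nonempty (SchauderBasis ℝ X)) ∨
        Decomposable X ∨ HasChain X) → PropH X := by
  refine ⟨chain_james.propH, fun X _ _ hX h => ?_⟩
  rcases h with ⟨H, _, _, _, ⟨φ⟩⟩ | ⟨_, β, ⟨b⟩⟩ | ⟨⟨φ⟩⟩ | ⟨_, ⟨b⟩⟩ | h | h
  · exact (chain_of_hilbert hX φ).propH
  · exact (chain_of_uncond hX b).propH
  · exact (chain_james.equiv φ).propH
  · exact (chain_of_schauder b).propH
  · exact h.propH
  · exact h.propH

end Pool.Agent.H518Z.Hol
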