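import Mathlib

set_option autoImplicit false

namespace Pool.Agent.H518Z.Hol

open Finset

variable {Y : Type*} [NormedAddCommGroup Y] [NormedSpace ℝ Y]

lemma exists_seq (h : ¬ FiniteDimensional ℝ Y) :
    ∃ e : ℕ → Y, (∀ n, ‖e n‖ = 1) ∧
      ∀ n, ∀ y ∈ Submodule.span ℝ (e '' {j | j < n}), 1 / 2 ≤ ‖e n - y‖ := by
  classical
  have key : ∀ s : Finset Y, ∃ x : Y, ‖x‖ = 1 ∧
      ∀ y ∈ Submodule.span ℝ (s : Set Y), 1 / 2 ≤ ‖x - y‖ := by
    intro s
    let F := Submodule.span ℝ (s : Set Y)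
    have hF : F.FG := ⟨s, rfl⟩
    have : FiniteDimensional ℝ F := .of_fg hF
    have Fclosed : IsClosed (F : Set Y) := Submodule.closed_of_finiteDimensional _
    have hx : ∃ x, x ∉ F := by
      by_contra h'
      push Not at h'
      have e : F = ⊤ := Submodule.eq_top_iff'.2 h'
      apply h
      rw [e] at this
      exact Module.finite_def.2 ((Submodule.fg_top _).1 (Module.finite_def.1 this))
    obtain ⟨x, -, h1, h2⟩ := riesz_lemma_of_lt_one (𝕜 := ℝ) Fclosed hx (r := 1 / 2) (by norm_num)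
    exact ⟨x, h1, h2⟩
  choose f hf1 hf2 using key
  let S : ℕ → Finset Y := fun n => Nat.rec ∅ (fun _ s => insert (f s) s) n
  have hS : ∀ n, S (n + 1) = insert (f (S n)) (S n) := fun n => rfl
  have hmem : ∀ n j, j < n → f (S j) ∈ S n := by
    intro n
    induction n with
    | zero => intro j hj; omega
    | succ n ih =>
      intro j hj
      rw [hS]
      rcases Nat.lt_succ_iff_lt_or_eq.1 hj with h1 | h1
      · exact mem_insert_of_mem (ih j h1)
      · rw [h1]; exact mem_insert_self _ _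
  refine ⟨fun n => f (S n), fun n => hf1 _, fun n y hy => hf2 _ y ?_⟩
  refine Submodule.span_mono ?_ hy
  rintro _ ⟨j, hj, rfl⟩
  exact hmem n j hj

lemma coef_bound {e : ℕ → Y} (h1 : ∀ n, ‖e n‖ = 1)
    (h2 : ∀ n, ∀ y ∈ Submodule.span ℝ (e '' {j | j < n}), 1 / 2 ≤ ‖e n - y‖) (c : ℕ → ℝ)
    (F : Finset ℕ) : ∀ k ∈ F, |c k| ≤ 3 ^ F.card * ‖∑ j ∈ F, c j • e j‖ := by
  induction F using Finset.induction_on_max with
  | empty => intro k hk; simp at hk
  | insert a s hs ih =>
    have ha : a ∉ s := fun h => lt_irrefl _ (hs a h)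
    rw [sum_insert ha, card_insert_of_notMem ha]
    set w := ∑ j ∈ s, c j • e j with hw
    have hwm : w ∈ Submodule.span ℝ (e '' {j | j < a}) :=
      Submodule.sum_mem _ fun j hj =>
        Submodule.smul_mem _ _ (Submodule.subset_span ⟨j, hs j hj, rfl⟩)
    have hca : |c a| ≤ 2 * ‖c a • e a + w‖ := by
      by_cases h0 : c a = 0
      · rw [h0, abs_zero]; positivity
      · have h3 := h2 a (-((c a)⁻¹ • w)) (Submodule.neg_mem _ (Submodule.smul_mem _ _ hwm))
        have e1 : c a • e a + w = c a • (e a - -((c a)⁻¹ • w)) := by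
          rw [sub_neg_eq_add, smul_add, smul_smul, mul_inv_cancel₀ h0, one_smul]
        rw [e1, norm_smul, Real.norm_eq_abs]
        have := abs_nonneg (c a)
        nlinarith
    have hw3 : ‖w‖ ≤ 3 * ‖c a • e a + w‖ := by
      have : ‖w‖ ≤ ‖c a • e a + w‖ + ‖c a • e a‖ := by
        have := norm_sub_le (c a • e a + w) (c a • e a)
        rwa [add_sub_cancel_left] at this
      rw [norm_smul, h1, Real.norm_eq_abs] at this
      linarith
    have hp : (1 : ℝ) ≤ 3 ^ s.card := one_le_pow₀ (by norm_num)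
    have hn := norm_nonneg (c a • e a + w)
    intro k hk
    rcases mem_insert.1 hk with rfl | hk
    · rw [pow_succ]; nlinarith
    · have := ih k hk
      rw [pow_succ]; nlinarith

/-- coordinates of the point `a e_n + b e_{n+1}` -/
def coef (n : ℕ) (a b : ℝ) (k : ℕ) : ℝ := (if k = n then a else 0) + (if k = n + 1 then b else 0)

lemma sum_coef (e : ℕ → Y) (n : ℕ) (a b : ℝ) (F : Finset ℕ) (h1 : n ∈ F) (h2 : n + 1 ∈ F) :
    ∑ j ∈ F, coef n a b j • e j = a • e n + b • e (n + 1) := by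
  simp only [coef, add_smul, sum_add_distrib, ite_smul, zero_smul, sum_ite_eq', h1, h2, if_true]

lemma coef_lip {e : ℕ → Y} (h1 : ∀ n, ‖e n‖ = 1)
    (h2 : ∀ n, ∀ y ∈ Submodule.span ℝ (e '' {j | j < n}), 1 / 2 ≤ ‖e n - y‖)
    (n n' : ℕ) (a b a' b' : ℝ) (k : ℕ) :
    |coef n a b k - coef n' a' b' k| ≤
      81 * ‖(a • e n + b • e (n + 1)) - (a' • e n' + b' • e (n' + 1))‖ := by
  let F : Finset ℕ := {n, n + 1, n', n' + 1}
  by_cases hk : k ∈ F
  · have h3 := coef_bound h1 h2 (fun j => coef n a b j - coef n' a' b' j) F k hk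
    have e1 : ∑ j ∈ F, (coef n a b j - coef n' a' b' j) • e j
        = (a • e n + b • e (n + 1)) - (a' • e n' + b' • e (n' + 1)) := by
      simp only [sub_smul, sum_sub_distrib]
      rw [sum_coef e n a b F (by simp [F]) (by simp [F]),
        sum_coef e n' a' b' F (by simp [F]) (by simp [F])]
    rw [e1] at h3
    have hc : F.card ≤ 4 := card_le_four
    have : (3 : ℝ) ^ F.card ≤ 3 ^ 4 := pow_le_pow_right₀ (by norm_num) hc
    refine h3.trans (mul_le_mul_of_nonneg_right (by linarith) (norm_nonneg _))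
  · simp only [F, mem_insert, mem_singleton, not_or] at hk
    simp only [coef, if_neg hk.1, if_neg hk.2.1, if_neg hk.2.2.1, if_neg hk.2.2.2]
    simp

lemma exists_phi {e : ℕ → Y} (h1 : ∀ n, ‖e n‖ = 1)
    (h2 : ∀ n, ∀ y ∈ Submodule.span ℝ (e '' {j | j < n}), 1 / 2 ≤ ‖e n - y‖) :
    ∃ φ : ℕ → Y → ℝ, (∀ k y, 0 ≤ φ k y) ∧ (∀ k y, φ k y ≤ 1) ∧
      (∀ k y y', |φ k y - φ k y'| ≤ 81 * ‖y - y'‖) ∧
      ∀ k n a b, 0 ≤ a → a ≤ 1 → 0 ≤ b → b ≤ 1 →
        φ k (a • e n + b • e (n + 1)) = coef n a b k := by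
  classical
  let P : ℕ × ℝ × ℝ → Y := fun p => p.2.1 • e p.1 + p.2.2 • e (p.1 + 1)
  let f : ℕ → Y → ℝ := fun k y =>
    if h : ∃ p, P p = y then coef h.choose.1 h.choose.2.1 h.choose.2.2 k else 0
  have hf : ∀ k p, f k (P p) = coef p.1 p.2.1 p.2.2 k := by
    intro k p
    have h : ∃ q, P q = P p := ⟨p, rfl⟩
    simp only [f, dif_pos h]
    have h3 := coef_lip h1 h2 h.choose.1 p.1 h.choose.2.1 h.choose.2.2 p.2.1 p.2.2 k
    have h4 : P h.choose = P p := h.choose_spec
    simp only [P] at h4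
    rw [h4, sub_self, norm_zero, mul_zero] at h3
    exact sub_eq_zero.1 (abs_nonpos_iff.1 h3)
  have hl : ∀ k, LipschitzOnWith 81 (f k) (Set.range P) := by
    intro k
    refine LipschitzOnWith.of_dist_le_mul ?_
    rintro _ ⟨p, rfl⟩ _ ⟨q, rfl⟩
    rw [hf, hf, Real.dist_eq, dist_eq_norm]
    exact_mod_cast coef_lip h1 h2 p.1 q.1 p.2.1 p.2.2 q.2.1 q.2.2 k
  choose g hg1 hg2 using fun k => (hl k).extend_real
  refine ⟨fun k y => max 0 (min 1 (g k y)), fun k y => le_max_left _ _,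
    fun k y => max_le zero_le_one (min_le_left _ _), fun k y y' => ?_, ?_⟩
  · have h3 := (hg1 k).dist_le_mul y y'
    rw [Real.dist_eq, dist_eq_norm] at h3
    have h4 : |max 0 (min 1 (g k y)) - max 0 (min 1 (g k y'))| ≤ |g k y - g k y'| := by
      refine (abs_max_sub_max_le_max _ _ _ _).trans (max_le (by simp) ?_)
      refine (abs_min_sub_min_le_max _ _ _ _).trans (max_le (by simp) le_rfl)
    exact h4.trans (by exact_mod_cast h3)
  · intro k n a b ha0 ha1 hb0 hb1
    have h3 : g k (a • e n + b • e (n + 1)) = coef n a b k := by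
      have := hg2 k (Set.mem_range_self (f := P) (n, a, b))
      rw [hf] at this
      exact this.symm
    simp only [h3]
    have h4 : 0 ≤ coef n a b k := by unfold coef; split_ifs <;> linarith
    have h5 : coef n a b k ≤ 1 := by
      unfold coef; split_ifs with h6 h7 h7
      · omega
      all_goals linarith
    rw [min_eq_right h5, max_eq_right h4]

lemma exists_u {e : ℕ → Y} (h1 : ∀ n, ‖e n‖ = 1)
    (h2 : ∀ n, ∀ y ∈ Submodule.span ℝ (e '' {j | j < n}), 1 / 2 ≤ ‖e n - y‖) :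
    ∃ (u : Y → ℕ → ℝ) (N : Y → ℕ), (∀ y k, 0 ≤ u y k) ∧
      (∀ y y' k, |u y k - u y' k| ≤ 162 * ‖y - y'‖) ∧
      (∀ y k, k ≠ N y → k ≠ N y + 1 → u y k = 0) ∧
      ∀ n a b k, 0 ≤ a → a ≤ 1 → 0 ≤ b → b ≤ 1 →
        u (a • e n + b • e (n + 1)) k = coef n a b k := by
  classical
  obtain ⟨φ, p0, p1, pl, pc⟩ := exists_phi h1 h2
  let I : ℕ → Type := fun k => {j : ℕ // j + 2 ≤ k ∨ k + 2 ≤ j}
  have hI : ∀ k, Nonempty (I k) := fun k => ⟨⟨k + 2, Or.inr le_rfl⟩⟩
  let m : ℕ → Y → ℝ := fun k y => ⨆ j : I k, φ j.1 y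
  have hb : ∀ k y, BddAbove (Set.range fun j : I k => φ j.1 y) := fun k y =>
    ⟨1, by rintro _ ⟨j, rfl⟩; exact p1 _ _⟩
  have hm : ∀ k y j, (j + 2 ≤ k ∨ k + 2 ≤ j) → φ j y ≤ m k y := fun k y j hj =>
    le_ciSup (hb k y) (⟨j, hj⟩ : I k)
  have hml : ∀ k y y', m k y ≤ m k y' + 81 * ‖y - y'‖ := by
    intro k y y'
    refine ciSup_le fun j => ?_
    have := pl j.1 y y'
    have := hm k y' j.1 j.2
    have := le_abs_self (φ j.1 y - φ j.1 y')
    linarith
  let u : Y → ℕ → ℝ := fun y k => max 0 (φ k y - m k y)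
  have hu : ∀ y j k, u y j ≠ 0 → u y k ≠ 0 → ¬ (j + 2 ≤ k) := by
    intro y j k hj hk hjk
    have a1 : m j y < φ j y := by
      by_contra h; exact hj (max_eq_left (by linarith))
    have a2 : m k y < φ k y := by
      by_contra h; exact hk (max_eq_left (by linarith))
    have := hm k y j (Or.inl hjk)
    have := hm j y k (Or.inr hjk)
    linarith
  have hN : ∀ y, ∃ n, ∀ k, k ≠ n → k ≠ n + 1 → u y k = 0 := by
    intro y
    by_cases h : ∃ k, u y k ≠ 0
    · refine ⟨Nat.find h, fun k hk1 hk2 => ?_⟩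
      by_contra hk
      have a1 := Nat.find_min' h hk
      have a2 := hu y _ _ (Nat.find_spec h) hk
      omega
    · push Not at h
      exact ⟨0, fun k _ _ => h k⟩
  choose N hN using hN
  refine ⟨u, N, fun y k => le_max_left _ _, fun y y' k => ?_, hN, ?_⟩
  · refine (abs_max_sub_max_le_max _ _ _ _).trans (max_le (by simp) ?_)
    have a1 := pl k y y'
    have a2 := hml k y y'
    have a3 := hml k y' y
    rw [norm_sub_rev] at a3
    rw [abs_le] at a1 ⊢
    constructor <;> linarith [a1.1, a1.2]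
  · intro n a b k ha0 ha1 hb0 hb1
    have h4 : 0 ≤ coef n a b k := by unfold coef; split_ifs <;> linarith
    simp only [u, pc k n a b ha0 ha1 hb0 hb1]
    have m0 : 0 ≤ m k (a • e n + b • e (n + 1)) :=
      (p0 _ _).trans (hm k _ (k + 2) (Or.inr le_rfl))
    by_cases hk : k = n ∨ k = n + 1
    · have : m k (a • e n + b • e (n + 1)) ≤ 0 := by
        refine ciSup_le fun j => ?_
        rw [pc j.1 n a b ha0 ha1 hb0 hb1]
        have := j.2
        unfold coef
        rw [if_neg (by omega), if_neg (by omega)]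
        simp
      rw [le_antisymm this m0, sub_zero, max_eq_right h4]
    · push Not at hk
      have : coef n a b k = 0 := by unfold coef; rw [if_neg hk.1, if_neg hk.2]; simp
      rw [this, max_eq_left (by linarith)]

end Pool.Agent.H518Z.Hol
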