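import Pool.Agent.H518Z.Hol.Coord

set_option autoImplicit false

namespace Pool.Agent.H518Z.Hol

variable {Y : Type*} [NormedAddCommGroup Y] [NormedSpace ℝ Y]

/-- clamp to `[0,1]` -/
noncomputable def cl (x : ℝ) : ℝ := max 0 (min 1 x)

lemma cl_nonneg (x : ℝ) : 0 ≤ cl x := le_max_left _ _
lemma cl_le_one (x : ℝ) : cl x ≤ 1 := max_le zero_le_one (min_le_left _ _)
lemma cl_lip (x y : ℝ) : |cl x - cl y| ≤ |x - y| := by
  refine (abs_max_sub_max_le_max _ _ _ _).trans (max_le (by simp) ?_)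
  exact (abs_min_sub_min_le_max _ _ _ _).trans (max_le (by simp) le_rfl)
lemma cl_of_nonpos {x : ℝ} (h : x ≤ 0) : cl x = 0 :=
  max_eq_left ((min_le_right _ _).trans h)
lemma cl_of_one_le {x : ℝ} (h : 1 ≤ x) : cl x = 1 := by
  unfold cl; rw [min_eq_left h, max_eq_right zero_le_one]
lemma cl_of_mem {x : ℝ} (h0 : 0 ≤ x) (h1 : x ≤ 1) : cl x = x := by
  unfold cl; rw [min_eq_right h1, max_eq_right h0]
lemma le_cl {x : ℝ} (h1 : x ≤ 1) : x ≤ cl x := by
  unfold cl; rw [min_eq_right h1]; exact le_max_right _ _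

/-- the broken line through the `e n` -/
noncomputable def gam (e : ℕ → Y) (θ : ℝ) : Y :=
  ((⌊θ⌋₊ : ℝ) + 1 - θ) • e ⌊θ⌋₊ + (θ - ⌊θ⌋₊) • e (⌊θ⌋₊ + 1)

lemma gam_norm {e : ℕ → Y} (h1 : ∀ n, ‖e n‖ = 1) {θ : ℝ} (h : 0 ≤ θ) : ‖gam e θ‖ ≤ 1 := by
  have a1 := Nat.floor_le h
  have a2 := Nat.lt_floor_add_one θ
  unfold gam
  refine (norm_add_le _ _).trans ?_
  rw [norm_smul, norm_smul, h1, h1, Real.norm_of_nonneg (by linarith),
    Real.norm_of_nonneg (by linarith)]
  linarith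

lemma gam_lip_aux {e : ℕ → Y} (h1 : ∀ n, ‖e n‖ = 1) {θ θ' : ℝ} (h : 0 ≤ θ) (h' : θ ≤ θ') :
    ‖gam e θ - gam e θ'‖ ≤ 2 * (θ' - θ) := by
  have a1 := Nat.floor_le h
  have a2 := Nat.lt_floor_add_one θ
  have b1 := Nat.floor_le (h.trans h')
  have b2 := Nat.lt_floor_add_one θ'
  have hm : ⌊θ⌋₊ ≤ ⌊θ'⌋₊ := Nat.floor_le_floor h'
  have hs : ∀ i j, ‖e i - e j‖ ≤ 2 := fun i j => by
    have := norm_sub_le (e i) (e j); rw [h1, h1] at this; linarith
  rcases Nat.lt_or_ge (⌊θ⌋₊ + 1) ⌊θ'⌋₊ with h2 | h2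
  · have : ((⌊θ⌋₊ : ℝ) + 2) ≤ ⌊θ'⌋₊ := by exact_mod_cast h2
    have := norm_sub_le (gam e θ) (gam e θ')
    have := gam_norm h1 h
    have := gam_norm h1 (h.trans h')
    linarith
  rcases Nat.eq_or_lt_of_le hm with h3 | h3
  · have e1 : gam e θ - gam e θ' = (θ' - θ) • (e ⌊θ⌋₊ - e (⌊θ⌋₊ + 1)) := by
      unfold gam; rw [← h3]; module
    rw [e1, norm_smul, Real.norm_of_nonneg (by linarith)]
    have := hs ⌊θ⌋₊ (⌊θ⌋₊ + 1)
    nlinarith
  · have h4 : ⌊θ'⌋₊ = ⌊θ⌋₊ + 1 := by omega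
    have e1 : gam e θ - gam e θ' = ((⌊θ⌋₊ : ℝ) + 1 - θ) • (e ⌊θ⌋₊ - e (⌊θ⌋₊ + 1))
        + (θ' - (⌊θ⌋₊ + 1)) • (e (⌊θ⌋₊ + 1) - e (⌊θ⌋₊ + 1 + 1)) := by
      unfold gam; rw [h4]; push_cast; module
    rw [h4] at b1
    push_cast at b1
    rw [e1]
    refine (norm_add_le _ _).trans ?_
    rw [norm_smul, norm_smul, Real.norm_of_nonneg (by linarith),
      Real.norm_of_nonneg (by linarith)]
    have := hs ⌊θ⌋₊ (⌊θ⌋₊ + 1)
    have := hs (⌊θ⌋₊ + 1) (⌊θ⌋₊ + 1 + 1)
    nlinarith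

lemma gam_lip {e : ℕ → Y} (h1 : ∀ n, ‖e n‖ = 1) {θ θ' : ℝ} (h : 0 ≤ θ) (h' : 0 ≤ θ') :
    ‖gam e θ - gam e θ'‖ ≤ 2 * |θ - θ'| := by
  rcases le_total θ θ' with h2 | h2
  · rw [abs_sub_comm, abs_of_nonneg (by linarith)]; exact gam_lip_aux h1 h h2
  · rw [norm_sub_rev, abs_of_nonneg (by linarith)]; exact gam_lip_aux h1 h' h2

/-- nonnegative sequence supported in the window `{n, n+1}` -/
def Win (a : ℕ → ℝ) (n : ℕ) : Prop := (∀ k, 0 ≤ a k) ∧ ∀ k, k ≠ n → k ≠ n + 1 → a k = 0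

/-- radial coordinate -/
def rho (a : ℕ → ℝ) (n : ℕ) : ℝ := a n + a (n + 1)

/-- angular coordinate -/
noncomputable def ang (a : ℕ → ℝ) (n : ℕ) : ℝ := n + a (n + 1) / rho a n

lemma Win.le_rho {a : ℕ → ℝ} {n : ℕ} (h : Win a n) (m : ℕ) : a m + a (m + 1) ≤ rho a n := by
  unfold rho
  have a0 := h.1 n
  have a1 := h.1 (n + 1)
  by_cases h1 : m = n
  · rw [h1]
  by_cases h2 : m = n + 1
  · rw [h.2 (m + 1) (by omega) (by omega), h2]; linarith
  rw [h.2 m h1 h2]
  by_cases h3 : m + 1 = n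
  · rw [h3]; linarith
  · rw [h.2 (m + 1) h3 (by omega)]; linarith

lemma rho_lip {a b : ℕ → ℝ} {n m : ℕ} (ha : Win a n) (hb : Win b m) {d : ℝ}
    (hd : ∀ k, |a k - b k| ≤ d) : |rho a n - rho b m| ≤ 2 * d := by
  have a1 := ha.le_rho m
  have a2 := hb.le_rho n
  have b1 := abs_le.1 (hd n)
  have b2 := abs_le.1 (hd (n + 1))
  have b3 := abs_le.1 (hd m)
  have b4 := abs_le.1 (hd (m + 1))
  unfold rho at *
  rw [abs_le]; constructor <;> linarith [b1.1, b1.2, b2.1, b2.2, b3.1, b3.2, b4.1, b4.2]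

lemma Win.ang_mem {a : ℕ → ℝ} {n : ℕ} (h : Win a n) : (n : ℝ) ≤ ang a n ∧ ang a n ≤ n + 1 := by
  have a0 := h.1 n
  have a1 := h.1 (n + 1)
  unfold ang rho
  constructor
  · have : 0 ≤ a (n + 1) / (a n + a (n + 1)) := by positivity
    linarith
  · have : a (n + 1) / (a n + a (n + 1)) ≤ 1 := div_le_one_of_le₀ (by linarith) (by linarith)
    linarith

lemma ang_adj {a b : ℕ → ℝ} {m : ℕ} (ha : Win a (m + 1)) (hb : Win b m) {d : ℝ}
    (hd : ∀ k, |a k - b k| ≤ d) (h1 : 3 / 16 ≤ rho a (m + 1)) (h2 : 3 / 16 ≤ rho b m) :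
    |ang a (m + 1) - ang b m| ≤ 11 * d := by
  have a1 := ha.2 m (by omega) (by omega)
  have a2 := hb.2 (m + 1 + 1) (by omega) (by omega)
  have b1 := abs_le.1 (hd m)
  have b2 := abs_le.1 (hd (m + 1 + 1))
  rw [a1] at b1
  rw [a2] at b2
  have c1 := ha.1 (m + 1 + 1)
  have c2 := hb.1 m
  have e1 : ang a (m + 1) - ang b m = a (m + 1 + 1) / rho a (m + 1) + b m / rho b m := by
    have : rho b m ≠ 0 := by linarith
    unfold ang
    have e2 : b (m + 1) = rho b m - b m := by unfold rho; ring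
    rw [e2]; push_cast; field_simp; ring
  have f1 : a (m + 1 + 1) / rho a (m + 1) ≤ 16 / 3 * d := by
    rw [div_le_iff₀ (by linarith)]; nlinarith [b2.2]
  have f2 : b m / rho b m ≤ 16 / 3 * d := by
    rw [div_le_iff₀ (by linarith)]; nlinarith [b1.1]
  have g1 : 0 ≤ a (m + 1 + 1) / rho a (m + 1) := div_nonneg c1 (by linarith)
  have g2 : 0 ≤ b m / rho b m := div_nonneg c2 (by linarith)
  rw [e1, abs_of_nonneg (by linarith)]
  linarith [b1.1]

lemma ang_lip {a b : ℕ → ℝ} {n m : ℕ} (ha : Win a n) (hb : Win b m) {d : ℝ}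
    (hd : ∀ k, |a k - b k| ≤ d) (hd1 : d < 1 / 32) (h2 : 1 / 4 < rho b m) :
    |ang a n - ang b m| ≤ 11 * d := by
  have hr := abs_le.1 (rho_lip ha hb hd)
  have h1 : 3 / 16 ≤ rho a n := by linarith [hr.1]
  have d0 : 0 ≤ d := (abs_nonneg _).trans (hd 0)
  by_cases e1 : n = m
  · subst e1
    have b1 := abs_le.1 (hd n)
    have b2 := abs_le.1 (hd (n + 1))
    have c1 := hb.1 n
    have c2 := hb.1 (n + 1)
    have e2 : ang a n - ang b n
        = ((a (n + 1) - b (n + 1)) * b n + b (n + 1) * (b n - a n)) / (rho a n * rho b n) := by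
      have : rho a n ≠ 0 := by linarith
      have : rho b n ≠ 0 := by linarith
      unfold ang
      field_simp
      unfold rho; ring
    have hp : 0 < rho a n * rho b n := mul_pos (by linarith) (by linarith)
    rw [e2, abs_div, abs_of_pos hp, div_le_iff₀ hp]
    have f1 : |(a (n + 1) - b (n + 1)) * b n + b (n + 1) * (b n - a n)| ≤ d * rho b n := by
      unfold rho
      rw [abs_le]; constructor <;> nlinarith [b1.1, b1.2, b2.1, b2.2]
    refine f1.trans ?_
    have : 0 ≤ d * rho b n := mul_nonneg d0 (by linarith)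
    nlinarith
  by_cases e2 : n = m + 1
  · subst e2; exact ang_adj ha hb hd h1 (by linarith)
  by_cases e3 : m = n + 1
  · subst e3
    rw [abs_sub_comm]
    exact ang_adj hb ha (fun k => by rw [abs_sub_comm]; exact hd k) (by linarith) h1
  exfalso
  have a1 := ha.2 m (by omega) (by omega)
  have a2 := ha.2 (m + 1) (by omega) (by omega)
  have b1 := abs_le.1 (hd m)
  have b2 := abs_le.1 (hd (m + 1))
  unfold rho at h2
  linarith [b1.1, b2.1]

/-- weight of `e 0` -/
noncomputable def wA (a : ℕ → ℝ) (n : ℕ) : ℝ :=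
  (1 - cl (4 * rho a n - 1)) * max 0 (1 / 2 - 2 * (rho a n - a 0 - a 1))

/-- new angle -/
noncomputable def Th (a : ℕ → ℝ) (n : ℕ) : ℝ :=
  max 0 (ang a n - 2) + cl (2 * rho a n - 1) * (1 + min (ang a n) 2)

/-- the self-map of the fan -/
noncomputable def fan (e : ℕ → Y) (a : ℕ → ℝ) (n : ℕ) : Y :=
  wA a n • e 0 + cl (4 * rho a n - 1) • gam e (Th a n)

lemma Win.ang_nonneg {a : ℕ → ℝ} {n : ℕ} (h : Win a n) : 0 ≤ ang a n :=
  (Nat.cast_nonneg n).trans h.ang_mem.1

lemma Win.Th_nonneg {a : ℕ → ℝ} {n : ℕ} (h : Win a n) : 0 ≤ Th a n := by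
  have := h.ang_nonneg
  have := cl_nonneg (2 * rho a n - 1)
  have : 0 ≤ min (ang a n) 2 := le_min h.ang_nonneg (by norm_num)
  unfold Th; positivity

lemma mul_lip {x y x' y' B B' : ℝ} (h1 : |y| ≤ B) (h2 : |x'| ≤ B') :
    |x * y - x' * y'| ≤ B * |x - x'| + B' * |y - y'| := by
  have e : x * y - x' * y' = (x - x') * y + x' * (y - y') := by ring
  rw [e]
  refine (abs_add_le _ _).trans ?_
  rw [abs_mul, abs_mul]
  have := abs_nonneg (x - x')
  have := abs_nonneg (y - y')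
  nlinarith

lemma wA_lip {a b : ℕ → ℝ} {n m : ℕ} (ha : Win a n) (hb : Win b m) {d : ℝ}
    (hd : ∀ k, |a k - b k| ≤ d) : |wA a n - wA b m| ≤ 12 * d := by
  have hr := abs_le.1 (rho_lip ha hb hd)
  have b1 := abs_le.1 (hd 0)
  have b2 := abs_le.1 (hd 1)
  have v0 := ha.le_rho 0
  have c1 : |max 0 (1 / 2 - 2 * (rho a n - a 0 - a 1))| ≤ 1 / 2 := by
    rw [abs_of_nonneg (le_max_left _ _)]
    exact max_le (by norm_num) (by simp only [zero_add] at v0; linarith)
  have c2 : |1 - cl (4 * rho b m - 1)| ≤ 1 := by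
    have := cl_nonneg (4 * rho b m - 1)
    have := cl_le_one (4 * rho b m - 1)
    rw [abs_le]; constructor <;> linarith
  refine (mul_lip c1 c2).trans ?_
  have c3 : |1 - cl (4 * rho a n - 1) - (1 - cl (4 * rho b m - 1))| ≤ 8 * d := by
    have := abs_le.1 ((cl_lip (4 * rho a n - 1) (4 * rho b m - 1)).trans
      (show _ ≤ 8 * d by rw [abs_le]; constructor <;> linarith [hr.1, hr.2]))
    rw [abs_le]; constructor <;> linarith [this.1, this.2]
  have c4 : |max 0 (1 / 2 - 2 * (rho a n - a 0 - a 1)) -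
      max 0 (1 / 2 - 2 * (rho b m - b 0 - b 1))| ≤ 8 * d := by
    refine (abs_max_sub_max_le_max _ _ _ _).trans (max_le ?_ ?_)
    · simp only [sub_self, abs_zero]; linarith [b1.1, b1.2]
    · rw [abs_le]; constructor <;> linarith [hr.1, hr.2, b1.1, b1.2, b2.1, b2.2]
  linarith

lemma Th_lip {a b : ℕ → ℝ} {n m : ℕ} (ha : Win a n) (hb : Win b m) {d : ℝ}
    (hd : ∀ k, |a k - b k| ≤ d) (hd1 : d < 1 / 32) (h2 : 1 / 4 < rho b m) :
    |Th a n - Th b m| ≤ 34 * d := by
  have hr := abs_le.1 (rho_lip ha hb hd)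
  have ht := ang_lip ha hb hd hd1 h2
  have c1 : |max 0 (ang a n - 2) - max 0 (ang b m - 2)| ≤ 11 * d := by
    refine (abs_max_sub_max_le_max _ _ _ _).trans (max_le ?_ ?_)
    · simp only [sub_self, abs_zero]; exact (abs_nonneg _).trans ht
    · rw [show ang a n - 2 - (ang b m - 2) = ang a n - ang b m by ring]; exact ht
  have c2 : |1 + min (ang a n) 2| ≤ 3 := by
    have : 0 ≤ min (ang a n) 2 := le_min ha.ang_nonneg (by norm_num)
    have := min_le_right (ang a n) 2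
    rw [abs_le]; constructor <;> linarith
  have c3 : |cl (2 * rho b m - 1)| ≤ 1 := by
    rw [abs_of_nonneg (cl_nonneg _)]; exact cl_le_one _
  have c4 := mul_lip (x := cl (2 * rho a n - 1)) (y' := 1 + min (ang b m) 2) c2 c3
  have c5 : |cl (2 * rho a n - 1) - cl (2 * rho b m - 1)| ≤ 4 * d :=
    (cl_lip _ _).trans (by rw [abs_le]; constructor <;> linarith [hr.1, hr.2])
  have c6 : |1 + min (ang a n) 2 - (1 + min (ang b m) 2)| ≤ 11 * d := by
    rw [show 1 + min (ang a n) 2 - (1 + min (ang b m) 2) = min (ang a n) 2 - min (ang b m) 2 by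
      ring]
    refine (abs_min_sub_min_le_max _ _ _ _).trans (max_le ht ?_)
    simp only [sub_self, abs_zero]; exact (abs_nonneg _).trans ht
  have e : Th a n - Th b m = (max 0 (ang a n - 2) - max 0 (ang b m - 2)) +
      (cl (2 * rho a n - 1) * (1 + min (ang a n) 2) -
        cl (2 * rho b m - 1) * (1 + min (ang b m) 2)) := by unfold Th; ring
  rw [e]
  refine (abs_add_le _ _).trans ?_
  linarith

lemma fan_lip {e : ℕ → Y} (h1 : ∀ n, ‖e n‖ = 1) {a b : ℕ → ℝ} {n m : ℕ} (ha : Win a n)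
    (hb : Win b m) {d : ℝ} (hd : ∀ k, |a k - b k| ≤ d) :
    ‖fan e a n - fan e b m‖ ≤ 88 * d := by
  have hr := abs_le.1 (rho_lip ha hb hd)
  have d0 : 0 ≤ d := (abs_nonneg _).trans (hd 0)
  have e1 : fan e a n - fan e b m = (wA a n - wA b m) • e 0 +
      ((cl (4 * rho a n - 1) - cl (4 * rho b m - 1)) • gam e (Th a n) +
        cl (4 * rho b m - 1) • (gam e (Th a n) - gam e (Th b m))) := by
    unfold fan; module
  have c1 := wA_lip ha hb hd
  have c2 : |cl (4 * rho a n - 1) - cl (4 * rho b m - 1)| ≤ 8 * d :=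
    (cl_lip _ _).trans (by rw [abs_le]; constructor <;> linarith [hr.1, hr.2])
  have c3 := gam_norm h1 ha.Th_nonneg
  have c4 := gam_norm h1 hb.Th_nonneg
  have c5 : ‖cl (4 * rho b m - 1) • (gam e (Th a n) - gam e (Th b m))‖ ≤ 68 * d := by
    by_cases h2 : 1 / 4 < rho b m
    · have c6 : ‖gam e (Th a n) - gam e (Th b m)‖ ≤ 68 * d := by
        by_cases h3 : d < 1 / 32
        · have := gam_lip h1 ha.Th_nonneg hb.Th_nonneg
          have := Th_lip ha hb hd h3 h2
          linarith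
        · have := norm_sub_le (gam e (Th a n)) (gam e (Th b m))
          linarith
      rw [norm_smul, Real.norm_of_nonneg (cl_nonneg _)]
      have := cl_le_one (4 * rho b m - 1)
      have := norm_nonneg (gam e (Th a n) - gam e (Th b m))
      nlinarith
    · rw [cl_of_nonpos (by linarith), zero_smul, norm_zero]; linarith
  rw [e1]
  refine (norm_add_le _ _).trans ((add_le_add le_rfl (norm_add_le _ _)).trans ?_)
  rw [norm_smul, norm_smul (_ - _ : ℝ), h1, Real.norm_eq_abs, Real.norm_eq_abs]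
  have := abs_nonneg (cl (4 * rho a n - 1) - cl (4 * rho b m - 1))
  nlinarith

lemma small_v {a : ℕ → ℝ} {n : ℕ} (ha : Win a n) {p : ℝ}
    (h : ∀ k, |a k - coef 0 p 0 k| ≤ 1 / 100) :
    rho a n - a 0 - a 1 ≤ 2 / 100 ∧ p - 1 / 100 ≤ rho a n := by
  have s : ∀ k, k ≠ 0 → a k ≤ 1 / 100 := by
    intro k hk
    have := (abs_le.1 (h k)).2
    simp only [coef, if_neg hk, ite_self] at this
    linarith
  have a0 := (abs_le.1 (h 0)).1
  simp only [coef, if_true, ite_self] at a0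
  have v0 := ha.le_rho 0
  have := ha.1 0
  have := ha.1 (0 + 1)
  refine ⟨?_, by linarith⟩
  have := s (n + 1) (by omega)
  unfold rho
  by_cases hn : n = 0
  · subst hn; simp only [zero_add]; linarith
  · have := s n hn
    simp only [zero_add] at *
    linarith

lemma win_coef (m : ℕ) {p q : ℝ} (hp : 0 ≤ p) (hq : 0 ≤ q) : Win (coef m p q) m := by
  refine ⟨fun k => ?_, fun k h1 h2 => ?_⟩
  · unfold coef; split_ifs <;> linarith
  · unfold coef; rw [if_neg h1, if_neg h2]; simp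

lemma fan_form (e : ℕ → Y) {a : ℕ → ℝ} {n : ℕ} (ha : Win a n) :
    ∃ (m : ℕ) (p q : ℝ), 0 ≤ p ∧ p ≤ 1 ∧ 0 ≤ q ∧ q ≤ 1 ∧ fan e a n = p • e m + q • e (m + 1) ∧
      ¬ ∀ k, |a k - coef m p q k| ≤ 1 / 100 := by
  have v0 : a 0 + a 1 ≤ rho a n := ha.le_rho 0
  have s0 := cl_nonneg (4 * rho a n - 1)
  have s1 := cl_le_one (4 * rho a n - 1)
  have m0 := le_max_left 0 (1 / 2 - 2 * (rho a n - a 0 - a 1))
  have m1 : max 0 (1 / 2 - 2 * (rho a n - a 0 - a 1)) ≤ 1 / 2 :=
    max_le (by norm_num) (by linarith)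
  have m2 := le_max_right 0 (1 / 2 - 2 * (rho a n - a 0 - a 1))
  have hang := ha.ang_mem
  by_cases hc : rho a n ≤ 1 / 4 ∨ (rho a n ≤ 1 / 2 ∧ ang a n ≤ 2)
  · refine ⟨0, wA a n + cl (4 * rho a n - 1), 0, ?_, ?_, le_rfl, zero_le_one, ?_, ?_⟩
    · unfold wA; nlinarith
    · unfold wA; nlinarith
    · unfold fan
      rcases hc with hc | ⟨hc1, hc2⟩
      · rw [cl_of_nonpos (by linarith)]; simp
      · have : Th a n = 0 := by
          unfold Th
          rw [max_eq_left (by linarith), cl_of_nonpos (by linarith)]; simp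
        rw [this]; unfold gam; simp [add_smul]
    · intro h
      obtain ⟨h1, h2⟩ := small_v ha h
      unfold wA at h2
      by_cases h3 : rho a n ≤ 1 / 4
      · rw [cl_of_nonpos (by linarith)] at h2; linarith
      · have h4 : rho a n ≤ 1 / 2 := by
          rcases hc with hc | hc
          · linarith
          · exact hc.1
        rw [cl_of_mem (by linarith) (by linarith)] at h2
        nlinarith
  push Not at hc
  obtain ⟨hc1, hc2⟩ := hc
  have T0 := ha.Th_nonneg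
  have a1 := Nat.floor_le T0
  have a2 := Nat.lt_floor_add_one (Th a n)
  have hA : wA a n = 0 := by
    unfold wA
    by_cases h3 : rho a n ≤ 1 / 2
    · have h4 := hc2 h3
      have h5 : 1 < n := by
        have : (1 : ℝ) < n := by linarith [hang.2]
        exact_mod_cast this
      rw [ha.2 0 (by omega) (by omega), ha.2 1 (by omega) (by omega),
        max_eq_left (by linarith), mul_zero]
    · rw [cl_of_one_le (by linarith)]; simp
  set s := cl (4 * rho a n - 1) with hs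
  set m := ⌊Th a n⌋₊ with hm
  refine ⟨m, s * (m + 1 - Th a n), s * (Th a n - m), by nlinarith, by nlinarith, by nlinarith,
    by nlinarith, ?_, ?_⟩
  · unfold fan gam
    rw [hA, zero_smul, zero_add, smul_add, smul_smul, smul_smul]
  intro h
  by_cases h3 : rho a n ≤ 1 / 2
  · have h4 := hc2 h3
    have h5 : Th a n = ang a n - 2 := by
      unfold Th
      rw [max_eq_right (by linarith), cl_of_nonpos (by linarith)]; simp
    have h6 : m + 1 ≤ n := by
      have : ((m : ℝ) + 1) ≤ n := by linarith [hang.2]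
      exact_mod_cast this
    have c1 := (abs_le.1 (h n)).2
    have c2 := (abs_le.1 (h (n + 1))).2
    unfold coef at c1 c2
    rw [if_neg (by omega), if_neg (by omega)] at c2
    rw [if_neg (by omega)] at c1
    have : a n ≤ 1 / 100 := by
      split_ifs at c1 with h7
      · have : (n : ℝ) = m + 1 := by exact_mod_cast h7
        have : Th a n - m = 0 := by linarith [hang.2]
        rw [this] at c1; linarith
      · linarith
    unfold rho at hc1
    linarith
  · have hs1 : s = 1 := cl_of_one_le (by linarith)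
    rw [hs1, one_mul, one_mul] at h
    have hw := win_coef m (p := m + 1 - Th a n) (q := Th a n - m) (by linarith) (by linarith)
    have r1 : rho (coef m (m + 1 - Th a n) (Th a n - m)) m = 1 := by
      unfold rho coef
      rw [if_pos rfl, if_neg (by omega), if_neg (by omega), if_pos rfl]; ring
    have r2 : ang (coef m (m + 1 - Th a n) (Th a n - m)) m = Th a n := by
      unfold ang
      rw [r1]
      unfold coef
      rw [if_neg (by omega), if_pos rfl]; ring
    have r3 := abs_le.1 (rho_lip ha hw h)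
    have r4 := abs_le.1 (ang_lip ha hw h (by norm_num) (by rw [r1]; norm_num))
    rw [r1] at r3
    rw [r2] at r4
    have r5 : 96 / 100 ≤ cl (2 * rho a n - 1) := by
      by_cases h5 : 2 * rho a n - 1 ≤ 1
      · have := le_cl h5; linarith [r3.1]
      · rw [cl_of_one_le (by linarith)]; norm_num
    have r6 := ha.ang_nonneg
    have r7 : ang a n + 1 - 12 / 100 ≤ Th a n := by
      unfold Th
      rcases le_total (ang a n) 2 with h6 | h6
      · rw [max_eq_left (by linarith), min_eq_left h6]; nlinarith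
      · rw [max_eq_right (by linarith), min_eq_right h6]; nlinarith
    linarith [r4.1]

/-- a bounded Lipschitz map without approximate fixed points -/
lemma exists_T0 {e : ℕ → Y} (h1 : ∀ n, ‖e n‖ = 1)
    (h2 : ∀ n, ∀ y ∈ Submodule.span ℝ (e '' {j | j < n}), 1 / 2 ≤ ‖e n - y‖) :
    ∃ T : Y → Y, (∀ y, ‖T y‖ ≤ 2) ∧ (∀ y y', ‖T y - T y'‖ ≤ 14256 * ‖y - y'‖) ∧
      (∀ y, 1 / 16200 ≤ ‖y - T y‖) ∧
      ∀ W : Submodule ℝ Y, (∀ n, e n ∈ W) → ∀ y, T y ∈ W := by
  obtain ⟨u, N, u0, ul, uw, uc⟩ := exists_u h1 h2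
  have hw : ∀ y, Win (u y) (N y) := fun y => ⟨u0 y, uw y⟩
  refine ⟨fun y => fan e (u y) (N y), fun y => ?_, fun y y' => ?_, fun y => ?_, fun W hW y => ?_⟩
  · obtain ⟨m, p, q, p0, p1, q0, q1, e1, -⟩ := fan_form e (hw y)
    simp only [e1]
    refine (norm_add_le _ _).trans ?_
    rw [norm_smul, norm_smul, h1, h1, Real.norm_of_nonneg p0, Real.norm_of_nonneg q0]
    linarith
  · have := fan_lip h1 (hw y) (hw y') (ul y y')
    linarith
  · obtain ⟨m, p, q, p0, p1, q0, q1, e1, hn⟩ := fan_form e (hw y)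
    simp only [e1]
    by_contra hlt
    apply hn
    intro k
    rw [← uc m p q k p0 p1 q0 q1]
    have := ul y (p • e m + q • e (m + 1)) k
    linarith
  · obtain ⟨m, p, q, -, -, -, -, e1, -⟩ := fan_form e (hw y)
    simp only [e1]
    exact W.add_mem (W.smul_mem _ (hW _)) (W.smul_mem _ (hW _))

end Pool.Agent.H518Z.Hol
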