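import Pool.Agent.H518Z.Hol.Retr

set_option autoImplicit false

namespace Pool.Agent.H518Z.Hol

variable {X : Type*} [NormedAddCommGroup X] [NormedSpace ℝ X]

/-- uniformly Lipschitz family -/
def UL {E : Type*} [NormedAddCommGroup E] (f : ℕ → X → E) : Prop :=
  ∃ L, 0 ≤ L ∧ ∀ n x x', ‖f n x - f n x'‖ ≤ L * ‖x - x'‖

section UL

variable {E F G : Type*} [NormedAddCommGroup E] [NormedAddCommGroup F] [NormedAddCommGroup G]

omit [NormedSpace ℝ X]

lemma UL.const (c : ℕ → E) : UL (fun n (_ : X) => c n) := ⟨0, le_rfl, fun _ _ _ => by simp⟩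

lemma UL.id : UL (fun (_ : ℕ) (x : X) => x) := ⟨1, zero_le_one, fun _ _ _ => by simp⟩

lemma UL.comp2 {f : ℕ → X → E} {g : ℕ → X → F} (hf : UL f) (hg : UL g) (h : ℕ → E → F → G)
    (P : ℕ → E → Prop) (hP : ∀ n x, P n (f n x)) (K : ℝ) (hK : 0 ≤ K)
    (hh : ∀ n a a' b b', P n a → P n a' → ‖h n a b - h n a' b'‖ ≤ K * (‖a - a'‖ + ‖b - b'‖)) :
    UL (fun n x => h n (f n x) (g n x)) := by
  obtain ⟨L, L0, hL⟩ := hf
  obtain ⟨M, M0, hM⟩ := hg
  refine ⟨K * (L + M), by positivity, fun n x x' => ?_⟩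
  refine (hh n _ _ _ _ (hP n x) (hP n x')).trans ?_
  rw [mul_assoc, add_mul]
  exact mul_le_mul_of_nonneg_left (add_le_add (hL n x x') (hM n x x')) hK

lemma UL.comp {f : ℕ → X → E} (hf : UL f) (h : ℕ → E → G) (K : ℝ) (hK : 0 ≤ K)
    (hh : ∀ n a a', ‖h n a - h n a'‖ ≤ K * ‖a - a'‖) : UL (fun n x => h n (f n x)) := by
  obtain ⟨L, L0, hL⟩ := hf
  refine ⟨K * L, by positivity, fun n x x' => ?_⟩
  refine (hh n _ _).trans ?_
  rw [mul_assoc]
  exact mul_le_mul_of_nonneg_left (hL n x x') hK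

lemma UL.add {f g : ℕ → X → E} (hf : UL f) (hg : UL g) : UL (fun n x => f n x + g n x) :=
  hf.comp2 hg (fun _ a b => a + b) (fun _ _ => True) (fun _ _ => trivial) 1 zero_le_one
    fun _ a a' b b' _ _ => by
      rw [one_mul, add_sub_add_comm]; exact norm_add_le _ _

lemma UL.sub {f g : ℕ → X → E} (hf : UL f) (hg : UL g) : UL (fun n x => f n x - g n x) :=
  hf.comp2 hg (fun _ a b => a - b) (fun _ _ => True) (fun _ _ => trivial) 1 zero_le_one
    fun _ a a' b b' _ _ => by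
      rw [one_mul, sub_sub_sub_comm]; exact norm_sub_le _ _

lemma UL.max {f g : ℕ → X → ℝ} (hf : UL f) (hg : UL g) : UL (fun n x => max (f n x) (g n x)) :=
  hf.comp2 hg (fun _ a b => Max.max a b) (fun _ _ => True) (fun _ _ => trivial) 1 zero_le_one
    fun _ a a' b b' _ _ => by
      rw [one_mul]
      refine (abs_max_sub_max_le_max _ _ _ _).trans (max_le ?_ ?_)
      · exact le_add_of_nonneg_right (norm_nonneg _)
      · exact le_add_of_nonneg_left (norm_nonneg _)

lemma UL.min {f g : ℕ → X → ℝ} (hf : UL f) (hg : UL g) : UL (fun n x => min (f n x) (g n x)) :=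
  hf.comp2 hg (fun _ a b => Min.min a b) (fun _ _ => True) (fun _ _ => trivial) 1 zero_le_one
    fun _ a a' b b' _ _ => by
      rw [one_mul]
      refine (abs_min_sub_min_le_max _ _ _ _).trans (max_le ?_ ?_)
      · exact le_add_of_nonneg_right (norm_nonneg _)
      · exact le_add_of_nonneg_left (norm_nonneg _)

lemma UL.norm {f : ℕ → X → E} (hf : UL f) : UL (fun n x => ‖f n x‖) :=
  hf.comp (fun _ a => ‖a‖) 1 zero_le_one fun _ a a' => by
    rw [one_mul]; exact abs_norm_sub_norm_le _ _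

lemma UL.cmul {f : ℕ → X → ℝ} (hf : UL f) (c : ℝ) : UL (fun n x => c * f n x) :=
  hf.comp (fun _ a => c * a) |c| (abs_nonneg _) fun _ a a' => by
    rw [← mul_sub, norm_mul, Real.norm_eq_abs]

lemma UL.cl {f : ℕ → X → ℝ} (hf : UL f) : UL (fun n x => cl (f n x)) :=
  hf.comp (fun _ a => Hol.cl a) 1 zero_le_one fun _ a a' => by
    rw [one_mul]; exact cl_lip _ _

end UL

lemma UL.smul_const {f : ℕ → X → ℝ} (hf : UL f) {e : ℕ → X} {C : ℝ} (h : ∀ n, ‖e n‖ ≤ C) :
    UL (fun n x => f n x • e n) :=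
  hf.comp (fun n a => a • e n) C ((norm_nonneg _).trans (h 0)) fun n a a' => by
    rw [← sub_smul, norm_smul, mul_comm]
    exact mul_le_mul_of_nonneg_right (h n) (norm_nonneg _)

lemma UL.smul {f : ℕ → X → ℝ} {g : ℕ → X → X} (hf : UL f) (hg : UL g)
    (h1 : ∀ n x, |f n x| ≤ 1) (h2 : ∀ n x, ‖g n x‖ ≤ 1) : UL (fun n x => f n x • g n x) := by
  obtain ⟨L, L0, hL⟩ := hf
  obtain ⟨M, M0, hM⟩ := hg
  refine ⟨L + M, by positivity, fun n x x' => (smul_lip _ _ _ _).trans ?_⟩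
  have a1 : |f n x - f n x'| ≤ L * ‖x - x'‖ := hL n x x'
  have := hM n x x'
  have := h1 n x'
  have := h2 n x
  have := abs_nonneg (f n x - f n x')
  have := norm_nonneg (g n x - g n x')
  nlinarith

lemma UL.lin {f : ℕ → X → X} (hf : UL f) {Q : ℕ → X →ₗ[ℝ] X} {C : ℝ} (hC : 0 ≤ C)
    (h : ∀ n x, ‖Q n x‖ ≤ C * ‖x‖) : UL (fun n x => Q n (f n x)) :=
  hf.comp (fun n a => Q n a) C hC fun n a a' => by rw [← map_sub]; exact h n _

lemma UL.trunc {f : ℕ → X → ℝ} {g : ℕ → X → X} (hf : UL f) (hg : UL g) (h : ∀ n x, 0 ≤ f n x) :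
    UL (fun n x => trunc (f n x) (g n x)) :=
  hf.comp2 hg (fun _ a b => Hol.trunc a b) (fun _ a => 0 ≤ a) h 2 (by norm_num)
    fun _ a a' b b' ha ha' => by
      have := trunc_lip ha ha' b b'
      rw [Real.norm_eq_abs]; linarith

/-- the data from which the map is built -/
structure Sys (X : Type*) [NormedAddCommGroup X] [NormedSpace ℝ X] where
  C : ℝ
  A : X →ₗ[ℝ] X
  Q : ℕ → X →ₗ[ℝ] X
  e : ℕ → X
  R0 : X → X
  R : ℕ → X → X
  hC : 1 ≤ C
  Ab : ∀ x, ‖A x‖ ≤ C * ‖x‖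
  Qb : ∀ n x, ‖Q n x‖ ≤ C * ‖x‖
  AA : ∀ x, A (A x) = A x
  AQ : ∀ n x, A (Q n x) = A x
  QQ : ∀ m n, m ≤ n → ∀ x, Q m (Q n x) = Q m x
  Qe : ∀ n, Q n (e n) = e n
  Ae : ∀ n, ‖A (e n)‖ = 1
  eb : ∀ n, ‖e n‖ ≤ C
  sep : ∀ m n, m < n → 1 ≤ C * ‖Q m (e n) - e m‖
  hR0 : IsRetr (10 ^ 10) (LinearMap.ker A) R0
  hR : ∀ n, IsRetr (10 ^ 10) (LinearMap.ker (Q n)) (R n)

/-- radius of the tube at height `s` of the spike `n` -/
noncomputable def rad (n : ℕ) (s : ℝ) : ℝ := max (1 / ((n : ℝ) + 1)) (min 1 (3 - s))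

lemma rad_pos (n : ℕ) (s : ℝ) : 0 < rad n s := lt_max_of_lt_left (by positivity)

lemma rad_of_le (n : ℕ) {s : ℝ} (h : s ≤ 2) : rad n s = 1 := by
  unfold rad
  rw [min_eq_left (by linarith), max_eq_right]
  rw [div_le_one (by positivity)]
  linarith [(Nat.cast_nonneg n : (0 : ℝ) ≤ n)]

lemma rad_le_one (n : ℕ) (s : ℝ) : rad n s ≤ 1 := by
  refine max_le ?_ (min_le_left _ _)
  rw [div_le_one (by positivity)]
  linarith [(Nat.cast_nonneg n : (0 : ℝ) ≤ n)]

lemma IsRetr.of_norm {L : ℝ} {W : Submodule ℝ X} {R : X → X} (h : IsRetr L W R) {x : X}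
    (hx : ‖x‖ = 1) : R x = x := by
  rw [h.2.2.1 x (by rw [hx]; norm_num), hx, inv_one, one_smul]

lemma hom_one (R : X → X) (y : X) : hom R 1 y = R y := by unfold hom; simp

namespace Sys

variable (S : Sys X)

/-- distance to the sheet `n` -/
noncomputable def del (n : ℕ) (x : X) : ℝ := ‖S.Q n x - ‖S.A x‖ • S.e n‖

/-- the region controlled by the sheet `n` -/
def U (n : ℕ) (x : X) : Prop := 2 * S.C ^ 2 * S.del n x < ‖S.A x‖

/-- height -/
noncomputable def s (n : ℕ) (x : X) : ℝ := min 3 (max 0 (‖S.A x‖ - 4 * S.C ^ 2 * S.del n x))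

/-- fibre coordinate -/
noncomputable def y (n : ℕ) (x : X) : X :=
  x - S.A x - trunc (2 * (S.C + 2) * max 0 (‖S.A x‖ - 2 * S.C ^ 2 * S.del n x)) (S.Q n x - S.A x)

/-- new height -/
noncomputable def s' (n : ℕ) (x : X) : ℝ :=
  min (S.s n x) (max 0 (max (S.s n x - cl (2 - 2 * ‖S.y n x‖)) (2 * S.s n x - 2)))

/-- new fibre coordinate -/
noncomputable def V (n : ℕ) (x : X) : X :=
  S.R0 ((1 - cl (S.s n x)) • S.R0 (S.y n x) + cl (S.s n x) • S.R n (x - S.Q n x)) +
    (hom (S.R n) (rad n (S.s n x)) (x - S.Q n x) - S.R n (x - S.Q n x))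

/-- the map near the sheet `n` -/
noncomputable def T (n : ℕ) (x : X) : X := S.s' n x • S.e n - S.V n x

lemma del_nonneg (n : ℕ) (x : X) : 0 ≤ S.del n x := norm_nonneg _

lemma s_nonneg (n : ℕ) (x : X) : 0 ≤ S.s n x := le_min (by norm_num) (le_max_left _ _)

lemma s_le (n : ℕ) (x : X) : S.s n x ≤ 3 := min_le_left _ _

lemma ul_T : UL S.T := by
  have C0 : 0 ≤ S.C := zero_le_one.trans S.hC
  have hA : UL (fun (_ : ℕ) x => S.A x) := UL.id.lin (Q := fun _ => S.A) C0 fun _ => S.Ab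
  have hQ : UL (fun n x => S.Q n x) := UL.id.lin C0 S.Qb
  have hd : UL S.del := (hQ.sub (hA.norm.smul_const S.eb)).norm
  have hs : UL S.s :=
    (UL.const fun _ => 3).min ((UL.const fun _ => 0).max (hA.norm.sub (hd.cmul _)))
  have hy : UL S.y :=
    (UL.id.sub hA).sub ((((UL.const fun _ => 0).max (hA.norm.sub (hd.cmul _))).cmul _).trunc
      (hQ.sub hA) fun n x => mul_nonneg (by positivity) (le_max_left _ _))
  have hs' : UL S.s' :=
    hs.min ((UL.const fun _ => 0).max ((hs.sub ((UL.const fun _ => 2).sub (hy.norm.cmul 2)).cl).max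
      ((hs.cmul 2).sub (UL.const fun _ => 2))))
  have hp : UL (fun n x => x - S.Q n x) := UL.id.sub hQ
  have hRp : UL (fun n x => S.R n (x - S.Q n x)) :=
    hp.comp S.R (10 ^ 10) (by norm_num) fun n => (S.hR n).2.1
  have hR0y : UL (fun n x => S.R0 (S.y n x)) :=
    hy.comp (fun _ => S.R0) (10 ^ 10) (by norm_num) fun _ => S.hR0.2.1
  have hr : UL (fun n x => rad n (S.s n x)) :=
    (UL.const fun n => 1 / ((n : ℝ) + 1)).max
      ((UL.const fun _ => 1).min ((UL.const fun _ => 3).sub hs))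
  have hh : UL (fun n x => hom (S.R n) (rad n (S.s n x)) (x - S.Q n x)) :=
    hr.comp2 hp (fun n a b => hom (S.R n) a b) (fun _ a => 0 < a) (fun n _ => rad_pos n _)
      (10 ^ 10 + 1) (by norm_num) fun n a a' b b' ha ha' => by
        have := hom_lip (S.hR n) (by norm_num) ha ha' b b'
        rw [Real.norm_eq_abs]; linarith
  have h1 : UL (fun n x => (1 - cl (S.s n x)) • S.R0 (S.y n x)) :=
    ((UL.const fun _ => 1).sub hs.cl).smul hR0y
      (fun n x => by
        have := cl_nonneg (S.s n x)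
        have := cl_le_one (S.s n x)
        rw [abs_le]; constructor <;> linarith)
      fun n x => (S.hR0.1 _).le
  have h2 : UL (fun n x => cl (S.s n x) • S.R n (x - S.Q n x)) :=
    hs.cl.smul hRp (fun n x => by rw [abs_of_nonneg (cl_nonneg _)]; exact cl_le_one _)
      fun n x => ((S.hR n).1 _).le
  have hV : UL S.V :=
    ((h1.add h2).comp (fun _ => S.R0) (10 ^ 10) (by norm_num) fun _ => S.hR0.2.1).add (hh.sub hRp)
  exact (hs'.smul_const S.eb).sub hV

lemma disj {m n : ℕ} (h : m < n) {x : X} (hm : S.U m x) (hn : S.U n x) : False := by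
  have e1 : ‖S.A x‖ • (S.Q m (S.e n) - S.e m) =
      (S.Q m x - ‖S.A x‖ • S.e m) - S.Q m (S.Q n x - ‖S.A x‖ • S.e n) := by
    rw [map_sub, map_smul, S.QQ m n h.le]; module
  have a1 := norm_sub_le (S.Q m x - ‖S.A x‖ • S.e m) (S.Q m (S.Q n x - ‖S.A x‖ • S.e n))
  rw [← e1, norm_smul, norm_norm] at a1
  have a2 := S.Qb m (S.Q n x - ‖S.A x‖ • S.e n)
  have a3 := S.sep m n h
  unfold U del at hm hn
  have := S.hC
  set a := ‖S.Q m x - ‖S.A x‖ • S.e m‖
  set b := ‖S.Q n x - ‖S.A x‖ • S.e n‖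
  have a0 : 0 ≤ a := norm_nonneg _
  have t0 := norm_nonneg (S.A x)
  have a4 : ‖S.A x‖ ≤ S.C * (a + S.C * b) := by
    calc ‖S.A x‖ ≤ ‖S.A x‖ * (S.C * ‖S.Q m (S.e n) - S.e m‖) := le_mul_of_one_le_right t0 a3
      _ = S.C * (‖S.A x‖ * ‖S.Q m (S.e n) - S.e m‖) := by ring
      _ ≤ _ := mul_le_mul_of_nonneg_left (by linarith) (by linarith)
  have : S.C * a ≤ S.C ^ 2 * a := by
    have : 0 ≤ S.C * a := by positivity
    nlinarith
  nlinarith

lemma T_off {n : ℕ} {x : X} (h : ¬ S.U n x) : S.T n x = -S.R0 (x - S.A x) := by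
  unfold U at h
  push Not at h
  have d0 : 0 ≤ S.C ^ 2 * S.del n x := mul_nonneg (sq_nonneg _) (S.del_nonneg n x)
  have h1 : S.s n x = 0 := by
    unfold s; rw [max_eq_left (by linarith), min_eq_right (by norm_num)]
  have h2 : S.y n x = x - S.A x := by
    unfold y; rw [max_eq_left (by linarith), mul_zero, trunc_zero, sub_zero]
  unfold T s' V
  rw [h1, h2, min_eq_left (le_max_left _ _), cl_of_nonpos (le_refl 0), rad_of_le n (by norm_num),
    hom_one]
  simp [S.hR0.of_norm (S.hR0.1 _)]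

lemma y_of_pos {n : ℕ} {x : X} (h : 0 < S.s n x) : S.y n x = x - S.Q n x := by
  have h1 : 4 * S.C ^ 2 * S.del n x < ‖S.A x‖ := by
    by_contra h1
    unfold s at h
    rw [max_eq_left (by linarith), min_eq_right (by norm_num)] at h
    exact lt_irrefl _ h
  have d0 := S.del_nonneg n x
  have hC := S.hC
  have t0 := norm_nonneg (S.A x)
  have d1 : S.del n x ≤ S.C ^ 2 * S.del n x := le_mul_of_one_le_left d0 (by nlinarith)
  have a1 : ‖S.Q n x - S.A x‖ ≤ S.del n x + ‖S.A x‖ * S.C + ‖S.A x‖ := by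
    have e1 : S.Q n x - S.A x = (S.Q n x - ‖S.A x‖ • S.e n) + ‖S.A x‖ • S.e n - S.A x := by abel
    rw [e1]
    refine (norm_sub_le _ _).trans (add_le_add ((norm_add_le _ _).trans (add_le_add le_rfl ?_))
      le_rfl)
    rw [norm_smul, norm_norm]
    exact mul_le_mul_of_nonneg_left (S.eb n) t0
  unfold y
  rw [max_eq_right (by linarith), trunc_of_le (by nlinarith)]
  abel

lemma y_mem (n : ℕ) (x : X) : S.y n x ∈ LinearMap.ker S.A := by
  unfold y trunc
  rw [LinearMap.mem_ker, map_sub, map_sub, map_smul, map_sub, S.AA, S.AQ]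
  simp

lemma ker_le (n : ℕ) : LinearMap.ker (S.Q n) ≤ LinearMap.ker S.A := fun x hx => by
  rw [LinearMap.mem_ker] at hx ⊢
  rw [← S.AQ n, hx, map_zero]

lemma p_mem (n : ℕ) (x : X) : x - S.Q n x ∈ LinearMap.ker (S.Q n) := by
  rw [LinearMap.mem_ker, map_sub, S.QQ n n le_rfl, sub_self]

/-- the invariant set -/
def M (z : X) : Prop := (S.A z = 0 ∧ ‖z‖ = 1) ∨
  ∃ (n : ℕ) (s : ℝ) (v : X), 0 < s ∧ s ≤ 3 ∧ S.Q n v = 0 ∧ ‖v‖ = rad n s ∧ z = s • S.e n + v

lemma V_of_one_le {n : ℕ} {x : X} (h : 1 ≤ S.s n x) :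
    S.V n x = hom (S.R n) (rad n (S.s n x)) (x - S.Q n x) := by
  unfold V
  rw [cl_of_one_le h, sub_self, zero_smul, zero_add, one_smul, S.hR0.of_norm ((S.hR n).1 _)]
  abel

lemma V_of_half {n : ℕ} {x : X} (h0 : 0 < S.s n x) (h : S.s n x ≤ 2)
    (h1 : 1 / 2 ≤ ‖x - S.Q n x‖) : S.V n x = S.R n (x - S.Q n x) := by
  unfold V
  rw [S.y_of_pos h0, rad_of_le n h, hom_one, sub_self, add_zero, S.hR0.2.2.1 _ h1,
    ← (S.hR n).2.2.1 _ h1, ← add_smul, sub_add_cancel, one_smul, S.hR0.of_norm ((S.hR n).1 _)]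

lemma T_mem (n : ℕ) (x : X) : S.M (S.T n x) := by
  have s0 := S.s_nonneg n x
  have s3 := S.s_le n x
  have b0 := cl_nonneg (2 - 2 * ‖S.y n x‖)
  have a0 : 0 ≤ S.s' n x := le_min s0 (le_max_left _ _)
  have a1 : S.s' n x ≤ S.s n x := min_le_left _ _
  rcases a0.eq_or_lt with h | h
  · left
    have h1 : S.s n x ≤ 1 := by
      by_contra h1
      have : 0 < S.s' n x :=
        lt_min (by linarith) (lt_max_of_lt_right (lt_max_of_lt_right (by linarith)))
      linarith
    unfold T V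
    rw [← h, zero_smul, zero_sub, rad_of_le n (by linarith), hom_one, sub_self, add_zero, map_neg,
      neg_eq_zero, norm_neg]
    refine ⟨S.hR0.2.2.2 _ (Submodule.add_mem _ (Submodule.smul_mem _ _ ?_)
      (Submodule.smul_mem _ _ ?_)), S.hR0.1 _⟩
    · exact S.hR0.2.2.2 _ (S.y_mem n x)
    · exact S.ker_le n ((S.hR n).2.2.2 _ (S.p_mem n x))
  · right
    refine ⟨n, S.s' n x, -S.V n x, h, by linarith, ?_, ?_, sub_eq_add_neg _ _⟩
    · rw [map_neg, neg_eq_zero]
      by_cases h1 : 1 ≤ S.s n x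
      · rw [S.V_of_one_le h1]
        exact Submodule.smul_mem (LinearMap.ker (S.Q n)) _
          ((S.hR n).2.2.2 _ (Submodule.smul_mem _ _ (S.p_mem n x)))
      · have h2 : 1 / 2 ≤ ‖x - S.Q n x‖ := by
          rw [← S.y_of_pos (by linarith)]
          by_contra h2
          unfold s' at h
          rw [cl_of_one_le (by linarith), max_eq_left (max_le (by linarith) (by linarith)),
            min_eq_right s0] at h
          exact lt_irrefl _ h
        rw [S.V_of_half (by linarith) (by linarith) h2]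
        exact (S.hR n).2.2.2 _ (S.p_mem n x)
    · rw [norm_neg]
      have e1 : rad n (S.s' n x) = rad n (S.s n x) := by
        by_cases h2 : S.s n x ≤ 2
        · rw [rad_of_le n h2, rad_of_le n (by linarith)]
        · have : S.s' n x = S.s n x :=
            min_eq_left (le_max_of_le_right (le_max_of_le_right (by linarith)))
          rw [this]
      rw [e1]
      by_cases h1 : 1 ≤ S.s n x
      · rw [S.V_of_one_le h1]
        unfold hom
        rw [norm_smul, (S.hR n).1, mul_one, Real.norm_of_nonneg (rad_pos _ _).le]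
      · have h2 : 1 / 2 ≤ ‖x - S.Q n x‖ := by
          rw [← S.y_of_pos (by linarith)]
          by_contra h2
          unfold s' at h
          rw [cl_of_one_le (by linarith), max_eq_left (max_le (by linarith) (by linarith)),
            min_eq_right s0] at h
          exact lt_irrefl _ h
        rw [S.V_of_half (by linarith) (by linarith) h2, (S.hR n).1, rad_of_le n (by linarith)]

lemma on_sheet {n : ℕ} {s : ℝ} {v : X} (h0 : 0 < s) (h3 : s ≤ 3) (hv : S.Q n v = 0)
    (hn : ‖v‖ = rad n s) : S.U n (s • S.e n + v) ∧ S.T n (s • S.e n + v) = s • S.e n + -v := by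
  have hA : S.A v = 0 := S.ker_le n hv
  have a1 : ‖S.A (s • S.e n + v)‖ = s := by
    rw [map_add, hA, add_zero, map_smul, norm_smul, S.Ae, mul_one, Real.norm_of_nonneg h0.le]
  have a2 : S.Q n (s • S.e n + v) = s • S.e n := by rw [map_add, hv, add_zero, map_smul, S.Qe]
  have a3 : S.del n (s • S.e n + v) = 0 := by unfold del; rw [a1, a2, sub_self, norm_zero]
  have a4 : S.s n (s • S.e n + v) = s := by
    unfold Sys.s; rw [a3, a1, mul_zero, sub_zero, max_eq_right h0.le, min_eq_right h3]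
  have a5 : s • S.e n + v - S.Q n (s • S.e n + v) = v := by rw [a2]; abel
  refine ⟨by unfold U; rw [a3, a1, mul_zero]; exact h0, ?_⟩
  unfold T
  rw [sub_eq_add_neg]
  by_cases h2 : s ≤ 2
  · rw [rad_of_le n h2] at hn
    rw [S.V_of_half (by rw [a4]; exact h0) (by rw [a4]; exact h2) (by rw [a5, hn]; norm_num), a5,
      (S.hR n).of_norm hn]
    unfold s'
    rw [S.y_of_pos (by rw [a4]; exact h0), a5, a4, hn, cl_of_nonpos (by norm_num), sub_zero,
      min_eq_left (le_max_of_le_right (le_max_left _ _))]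
  · rw [S.V_of_one_le (by rw [a4]; linarith), a5, a4, hom_of_le (S.hR n) (rad_pos _ _) hn.ge, hn,
      smul_smul, mul_inv_cancel₀ (rad_pos _ _).ne', one_smul]
    unfold s'
    rw [a4, min_eq_left (le_max_of_le_right (le_max_of_le_right (by linarith)))]

include S in
theorem exists_G : ∃ (G : X → X) (L B : ℝ), 1 ≤ L ∧ 1 ≤ B ∧
    (∀ x x', ‖G x - G x'‖ ≤ L * ‖x - x'‖) ∧ (∀ x, ‖G x‖ ≤ B) ∧ (∀ x, G (G (G x)) = G x) ∧
    (∀ x, G x ≠ x) ∧ ∀ ε > 0, ∃ x, ‖x‖ ≤ B ∧ ‖x - G x‖ < ε := by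
  have hN : ∀ x, ∃ n, ∀ m, m ≠ n → ¬ S.U m x := by
    intro x
    by_cases h : ∃ n, S.U n x
    · obtain ⟨n, hn⟩ := h
      refine ⟨n, fun m hm h' => ?_⟩
      rcases lt_or_gt_of_ne hm with h1 | h1
      · exact S.disj h1 h' hn
      · exact S.disj h1 hn h'
    · exact ⟨0, fun m _ h' => h ⟨m, h'⟩⟩
  choose N hN using hN
  obtain ⟨L, L0, hL⟩ := S.ul_T
  have hC := S.hC
  let G : X → X := fun x => S.T (N x) x
  have g1 : ∀ z, S.A z = 0 → ‖z‖ = 1 → G z = -z := by
    intro z h1 h2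
    have : ¬ S.U (N z) z := by
      unfold U
      rw [h1, norm_zero]
      have := S.del_nonneg (N z) z
      push Not
      positivity
    simp only [G]
    rw [S.T_off this, h1, sub_zero, S.hR0.of_norm h2]
  have g2 : ∀ n s v, 0 < s → s ≤ 3 → S.Q n v = 0 → ‖v‖ = rad n s →
      G (s • S.e n + v) = s • S.e n + -v := by
    intro n s v h0 h3 hv hn
    obtain ⟨a1, a2⟩ := S.on_sheet h0 h3 hv hn
    have : n = N (s • S.e n + v) := by
      by_contra h; exact hN _ n h a1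
    simp only [G]
    rw [← this, a2]
  have g3 : ∀ z, S.M z → G (G z) = z ∧ G z ≠ z ∧ ‖z‖ ≤ 3 * S.C + 1 := by
    rintro z (⟨h1, h2⟩ | ⟨n, s, v, h0, h3, hv, hn, rfl⟩)
    · rw [g1 z h1 h2, g1 (-z) (by rw [map_neg, h1, neg_zero]) (by rw [norm_neg, h2]), neg_neg]
      refine ⟨rfl, fun h => ?_, by linarith⟩
      have : (2 : ℝ) • z = 0 := by rw [two_smul]; nth_rewrite 1 [← h]; simp
      rw [smul_eq_zero] at this
      rcases this with h4 | h4
      · norm_num at h4
      · rw [h4, norm_zero] at h2; norm_num at h2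
    · rw [g2 n s v h0 h3 hv hn, g2 n s (-v) h0 h3 (by rw [map_neg, hv, neg_zero])
        (by rw [norm_neg, hn]), neg_neg]
      refine ⟨rfl, fun h => ?_, ?_⟩
      · have h5 := add_left_cancel h
        have : (2 : ℝ) • v = 0 := by rw [two_smul]; nth_rewrite 1 [← h5]; simp
        rw [smul_eq_zero] at this
        rcases this with h4 | h4
        · norm_num at h4
        · rw [h4, norm_zero] at hn; exact (rad_pos n s).ne hn
      · refine (norm_add_le _ _).trans ?_
        rw [norm_smul, Real.norm_of_nonneg h0.le, hn]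
        have := S.eb n
        have := rad_le_one n s
        have := norm_nonneg (S.e n)
        nlinarith
  have gm : ∀ x, S.M (G x) := fun x => S.T_mem _ _
  refine ⟨G, 2 * L + 10 ^ 10 * (1 + S.C), 3 * S.C + 1, by nlinarith, by linarith,
    fun x x' => ?_, fun x => (g3 _ (gm x)).2.2, fun x => (g3 _ (gm x)).1, fun x h => ?_,
    fun ε hε => ?_⟩
  · have n0 := norm_nonneg (x - x')
    by_cases h : N x = N x'
    · simp only [G]
      rw [← h]
      refine (hL _ _ _).trans (mul_le_mul_of_nonneg_right (by nlinarith) n0)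
    · have a1 := S.T_off (hN x (N x') (Ne.symm h))
      have a2 := S.T_off (hN x' (N x) h)
      have e1 : G x - G x' = (S.T (N x) x - S.T (N x) x') + (S.T (N x') x - S.T (N x') x')
          + (S.R0 (x - S.A x) - S.R0 (x' - S.A x')) := by
        simp only [G]; rw [a1, a2]; abel
      have a3 := S.hR0.2.1 (x - S.A x) (x' - S.A x')
      have a4 : ‖x - S.A x - (x' - S.A x')‖ ≤ ‖x - x'‖ + S.C * ‖x - x'‖ := by
        rw [sub_sub_sub_comm, ← map_sub]
        exact (norm_sub_le _ _).trans (add_le_add le_rfl (S.Ab _))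
      rw [e1]
      refine norm_add₃_le.trans ?_
      have := hL (N x) x x'
      have := hL (N x') x x'
      nlinarith
  · have := gm x
    rw [h] at this
    exact (g3 x this).2.1 h
  · obtain ⟨n, hn⟩ := exists_nat_one_div_lt (half_pos hε)
    have r3 : rad n 3 = 1 / ((n : ℝ) + 1) := by
      unfold rad
      rw [sub_self, min_eq_right zero_le_one, max_eq_left (by positivity)]
    have v1 : S.Q n (rad n 3 • S.R n 0) = 0 :=
      Submodule.smul_mem (LinearMap.ker (S.Q n)) _ ((S.hR n).2.2.2 _ (Submodule.zero_mem _))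
    have v2 : ‖rad n 3 • S.R n 0‖ = rad n 3 := by
      rw [norm_smul, (S.hR n).1, mul_one, Real.norm_of_nonneg (rad_pos _ _).le]
    refine ⟨(3 : ℝ) • S.e n + rad n 3 • S.R n 0,
      (g3 _ (Or.inr ⟨n, 3, _, by norm_num, le_rfl, v1, v2, rfl⟩)).2.2, ?_⟩
    rw [g2 n 3 _ (by norm_num) le_rfl v1 v2, add_sub_add_left_eq_sub, sub_neg_eq_add]
    refine (norm_add_le _ _).trans_lt ?_
    rw [v2, r3]; linarith

end Sys

end Pool.Agent.H518Z.Hol
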