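import Pool.Agent.H518Z.Hol.Fan

set_option autoImplicit false

namespace Pool.Agent.H518Z.Hol

variable {X : Type*} [NormedAddCommGroup X] [NormedSpace ℝ X]

lemma smul_lip (a a' : ℝ) (x x' : X) :
    ‖a • x - a' • x'‖ ≤ |a - a'| * ‖x‖ + |a'| * ‖x - x'‖ := by
  have e : a • x - a' • x' = (a - a') • x + a' • (x - x') := by module
  rw [e]
  refine (norm_add_le _ _).trans ?_
  rw [norm_smul, norm_smul, Real.norm_eq_abs, Real.norm_eq_abs]

lemma inv_smul_lip {a a' : ℝ} {x x' : X} (ha : 0 < a) (ha' : 0 < a') (hx : ‖x'‖ ≤ a') :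
    a * ‖a⁻¹ • x - a'⁻¹ • x'‖ ≤ ‖x - x'‖ + |a - a'| := by
  have e : a • (a⁻¹ • x - a'⁻¹ • x') = (x - x') + ((a' - a) * a'⁻¹) • x' := by
    rw [smul_sub, smul_smul, smul_smul, mul_inv_cancel₀ ha.ne', one_smul, sub_mul,
      mul_inv_cancel₀ ha'.ne', sub_smul, one_smul]
    abel
  have e2 : a * ‖a⁻¹ • x - a'⁻¹ • x'‖ = ‖a • (a⁻¹ • x - a'⁻¹ • x')‖ := by
    rw [norm_smul, Real.norm_of_nonneg ha.le]
  rw [e2, e]
  refine (norm_add_le _ _).trans (add_le_add le_rfl ?_)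
  rw [norm_smul, Real.norm_eq_abs, abs_mul, abs_sub_comm, abs_of_pos (inv_pos.2 ha'), mul_assoc]
  refine mul_le_of_le_one_right (abs_nonneg _) ?_
  rw [inv_mul_le_iff₀ ha']; linarith

/-- A Lipschitz map onto the unit sphere, radial outside the half ball, preserving `W`. -/
def IsRetr (L : ℝ) (W : Submodule ℝ X) (R : X → X) : Prop :=
  (∀ x, ‖R x‖ = 1) ∧ (∀ x x', ‖R x - R x'‖ ≤ L * ‖x - x'‖) ∧
    (∀ x, 1 / 2 ≤ ‖x‖ → R x = ‖x‖⁻¹ • x) ∧ ∀ x ∈ W, R x ∈ W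

/-- Benyamini and Sternfeld: Lipschitz retraction onto the sphere with a universal constant. -/
theorem exists_retr (W : Submodule ℝ X) (hW : ¬ FiniteDimensional ℝ W) :
    ∃ R : X → X, IsRetr (10 ^ 10) W R := by
  obtain ⟨e, h1, h2⟩ := exists_seq hW
  have h2' : ∀ n, ∀ y ∈ Submodule.span ℝ ((fun n => (e n : X)) '' {j | j < n}),
      1 / 2 ≤ ‖(e n : X) - y‖ := by
    intro n y hy
    have e1 : (fun n => (e n : X)) '' {j | j < n} = W.subtype '' (e '' {j | j < n}) := by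
      rw [Set.image_image]; rfl
    rw [e1, ← Submodule.map_span] at hy
    obtain ⟨z, hz, rfl⟩ := hy
    exact h2 n z hz
  obtain ⟨T, tb, tl, tn, tw⟩ := exists_T0 (e := fun n => (e n : X)) h1 h2'
  let F : X → X := fun y => y - cl (4 - ‖y‖) • T y
  have fn : ∀ y, 1 / 16200 ≤ ‖F y‖ := by
    intro y
    by_cases h : ‖y‖ ≤ 3
    · simp only [F]; rw [cl_of_one_le (by linarith), one_smul]; exact tn y
    · have a1 := norm_sub_norm_le y (cl (4 - ‖y‖) • T y)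
      rw [norm_smul, Real.norm_of_nonneg (cl_nonneg _)] at a1
      have := cl_le_one (4 - ‖y‖)
      have := cl_nonneg (4 - ‖y‖)
      have := tb y
      have := norm_nonneg (T y)
      simp only [F]; nlinarith
  have fl : ∀ y y', ‖F y - F y'‖ ≤ 14259 * ‖y - y'‖ := by
    intro y y'
    have e1 : F y - F y' = (y - y') - (cl (4 - ‖y‖) • T y - cl (4 - ‖y'‖) • T y') := by
      simp only [F]; abel
    rw [e1]
    refine (norm_sub_le _ _).trans ?_
    have a1 := smul_lip (cl (4 - ‖y‖)) (cl (4 - ‖y'‖)) (T y) (T y')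
    have a2 : |cl (4 - ‖y‖) - cl (4 - ‖y'‖)| ≤ ‖y - y'‖ := by
      refine (cl_lip _ _).trans ?_
      rw [show 4 - ‖y‖ - (4 - ‖y'‖) = ‖y'‖ - ‖y‖ by ring, abs_sub_comm]
      exact abs_norm_sub_norm_le _ _
    rw [abs_of_nonneg (cl_nonneg _)] at a1
    have := cl_le_one (4 - ‖y'‖)
    have := tb y
    have := tl y y'
    have := norm_nonneg (T y - T y')
    have := norm_nonneg (T y)
    have := norm_nonneg (y - y')
    have := abs_nonneg (cl (4 - ‖y‖) - cl (4 - ‖y'‖))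
    nlinarith
  have fp : ∀ y, 0 < ‖F y‖ := fun y => lt_of_lt_of_le (by norm_num) (fn y)
  refine ⟨fun y => ‖F ((8 : ℝ) • y)‖⁻¹ • F ((8 : ℝ) • y), fun y => ?_, fun y y' => ?_,
    fun y hy => ?_, fun y hy => ?_⟩
  · simp only [norm_smul, norm_inv, norm_norm]
    exact inv_mul_cancel₀ (fp _).ne'
  · have a1 := inv_smul_lip (x := F ((8 : ℝ) • y)) (fp ((8 : ℝ) • y)) (fp ((8 : ℝ) • y')) le_rfl
    have a2 := abs_norm_sub_norm_le (F ((8 : ℝ) • y)) (F ((8 : ℝ) • y'))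
    have a3 := fl ((8 : ℝ) • y) ((8 : ℝ) • y')
    rw [← smul_sub, norm_smul, Real.norm_ofNat] at a3
    have a4 := fn ((8 : ℝ) • y)
    have := norm_nonneg (‖F ((8 : ℝ) • y)‖⁻¹ • F ((8 : ℝ) • y) -
      ‖F ((8 : ℝ) • y')‖⁻¹ • F ((8 : ℝ) • y'))
    have := norm_nonneg (y - y')
    simp only
    nlinarith
  · have a1 : ‖(8 : ℝ) • y‖ = 8 * ‖y‖ := by rw [norm_smul, Real.norm_ofNat]
    have a2 : F ((8 : ℝ) • y) = (8 : ℝ) • y := by
      simp only [F]; rw [cl_of_nonpos (by linarith), zero_smul, sub_zero]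
    simp only [a2, a1, smul_smul]
    congr 1
    have : ‖y‖ ≠ 0 := by linarith
    field_simp
  · exact W.smul_mem _ (W.sub_mem (W.smul_mem _ hy)
      (W.smul_mem _ (tw W (fun n => (e n).2) _)))

/-- radial truncation of `v` to the ball of radius `k` -/
noncomputable def trunc (k : ℝ) (v : X) : X := (k / max k ‖v‖) • v

lemma trunc_of_le {k : ℝ} {v : X} (h : ‖v‖ ≤ k) : trunc k v = v := by
  unfold trunc
  rw [max_eq_left h]
  by_cases h0 : k = 0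
  · rw [h0] at h; rw [norm_le_zero_iff.1 h, smul_zero]
  · rw [div_self h0, one_smul]

lemma trunc_zero (v : X) : trunc 0 v = 0 := by unfold trunc; simp

lemma trunc_norm {k : ℝ} (hk : 0 ≤ k) (v : X) : ‖trunc k v‖ ≤ k := by
  rcases le_total ‖v‖ k with h | h
  · rw [trunc_of_le h]; exact h
  · unfold trunc
    rw [max_eq_right h, norm_smul, Real.norm_of_nonneg (by positivity)]
    by_cases h0 : ‖v‖ = 0
    · rw [h0, mul_zero]; exact hk
    · rw [div_mul_cancel₀ _ h0]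

lemma trunc_lip {k k' : ℝ} (hk : 0 ≤ k) (hk' : 0 ≤ k') (v v' : X) :
    ‖trunc k v - trunc k' v'‖ ≤ 2 * ‖v - v'‖ + 2 * |k - k'| := by
  have n0 := norm_nonneg (v - v')
  have n1 := abs_nonneg (k - k')
  rcases hk.eq_or_lt with rfl | hk0
  · rw [trunc_zero, zero_sub, norm_neg]
    have := trunc_norm hk' v'
    rw [zero_sub, abs_neg, abs_of_nonneg hk']
    linarith
  rcases hk'.eq_or_lt with rfl | hk0'
  · rw [trunc_zero, sub_zero]
    have := trunc_norm hk v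
    rw [sub_zero, abs_of_nonneg hk]
    linarith
  have p1 : 0 < max k ‖v‖ := lt_max_of_lt_left hk0
  have p2 : 0 < max k' ‖v'‖ := lt_max_of_lt_left hk0'
  have a1 := inv_smul_lip (x := v) (x' := v') p1 p2 (le_max_right _ _)
  have a2 : |max k ‖v‖ - max k' ‖v'‖| ≤ |k - k'| + ‖v - v'‖ :=
    (abs_max_sub_max_le_max _ _ _ _).trans
      (max_le (by linarith) (by linarith [abs_norm_sub_norm_le v v']))
  have e1 : trunc k v - trunc k' v' =
      -(k' • ((max k' ‖v'‖)⁻¹ • v') - k • ((max k ‖v‖)⁻¹ • v)) := by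
    unfold trunc; rw [smul_smul, smul_smul, div_eq_mul_inv, div_eq_mul_inv]; abel
  rw [e1, norm_neg]
  refine (smul_lip _ _ _ _).trans ?_
  have a3 : ‖(max k' ‖v'‖)⁻¹ • v'‖ ≤ 1 := by
    rw [norm_smul, Real.norm_of_nonneg (inv_pos.2 p2).le, inv_mul_le_iff₀ p2, mul_one]
    exact le_max_right _ _
  rw [abs_of_pos hk0, norm_sub_rev, abs_sub_comm]
  have a4 := le_max_left k ‖v‖
  have := norm_nonneg ((max k ‖v‖)⁻¹ • v - (max k' ‖v'‖)⁻¹ • v')
  nlinarith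

/-- homogenisation -/
noncomputable def hom (R : X → X) (r : ℝ) (y : X) : X := r • R (r⁻¹ • y)

lemma hom_lip_aux {L : ℝ} {W : Submodule ℝ X} {R : X → X} (h : IsRetr L W R) (hL : 0 ≤ L)
    {r r' : ℝ} (hr : 0 < r) (hr' : 0 < r') (y y' : X) (hy : ‖y'‖ ≤ r') :
    ‖hom R r y - hom R r' y'‖ ≤ (L + 1) * (‖y - y'‖ + |r - r'|) := by
  unfold hom
  rw [norm_sub_rev]
  refine (smul_lip _ _ _ _).trans ?_
  rw [h.1, abs_of_pos hr, norm_sub_rev, abs_sub_comm]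
  have a1 := h.2.1 (r⁻¹ • y) (r'⁻¹ • y')
  have a2 := inv_smul_lip (x := y) hr hr' hy
  have := norm_nonneg (y - y')
  have a3 : r * ‖R (r⁻¹ • y) - R (r'⁻¹ • y')‖ ≤ L * (‖y - y'‖ + |r - r'|) := by
    calc r * ‖R (r⁻¹ • y) - R (r'⁻¹ • y')‖ ≤ r * (L * ‖r⁻¹ • y - r'⁻¹ • y'‖) :=
          mul_le_mul_of_nonneg_left a1 hr.le
      _ = L * (r * ‖r⁻¹ • y - r'⁻¹ • y'‖) := by ring
      _ ≤ _ := mul_le_mul_of_nonneg_left a2 hL
  nlinarith

lemma hom_of_le {L : ℝ} {W : Submodule ℝ X} {R : X → X} (h : IsRetr L W R)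
    {r : ℝ} (hr : 0 < r) {y : X} (hy : r ≤ ‖y‖) : hom R r y = r • (‖y‖⁻¹ • y) := by
  unfold hom
  have a1 : ‖r⁻¹ • y‖ = r⁻¹ * ‖y‖ := by rw [norm_smul, Real.norm_of_nonneg (inv_pos.2 hr).le]
  have a2 : 1 ≤ r⁻¹ * ‖y‖ := by rw [le_inv_mul_iff₀ hr]; linarith
  rw [h.2.2.1 _ (by linarith), a1, smul_smul, smul_smul, smul_smul]
  congr 1
  have : ‖y‖ ≠ 0 := by linarith
  field_simp

lemma hom_lip {L : ℝ} {W : Submodule ℝ X} {R : X → X} (h : IsRetr L W R) (hL : 1 ≤ L)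
    {r r' : ℝ} (hr : 0 < r) (hr' : 0 < r') (y y' : X) :
    ‖hom R r y - hom R r' y'‖ ≤ (L + 1) * (‖y - y'‖ + |r - r'|) := by
  by_cases h1 : ‖y'‖ ≤ r'
  · exact hom_lip_aux h (by linarith) hr hr' y y' h1
  by_cases h2 : ‖y‖ ≤ r
  · rw [norm_sub_rev, norm_sub_rev y, abs_sub_comm]
    exact hom_lip_aux h (by linarith) hr' hr y' y h2
  push Not at h1 h2
  rw [hom_of_le h hr h2.le, hom_of_le h hr' h1.le, norm_sub_rev]
  refine (smul_lip _ _ _ _).trans ?_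
  have p1 : 0 < ‖y‖ := hr.trans h2
  have p2 : 0 < ‖y'‖ := hr'.trans h1
  have a1 := inv_smul_lip (x := y) (x' := y') p1 p2 le_rfl
  have a2 := abs_norm_sub_norm_le y y'
  have a3 : ‖‖y'‖⁻¹ • y'‖ = 1 := by
    rw [norm_smul, norm_inv, norm_norm, inv_mul_cancel₀ p2.ne']
  rw [a3, abs_of_pos hr, norm_sub_rev, abs_sub_comm]
  have := norm_nonneg (‖y‖⁻¹ • y - ‖y'‖⁻¹ • y')
  have := norm_nonneg (y - y')
  have := abs_nonneg (r - r')
  nlinarith

end Pool.Agent.H518Z.Hol
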